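import Pool.Agent.Lib.MP_1c8ed6_co.Lin.Conn

/-! Two disjoint spanning trees can be re-chosen with almost equal degrees. -/

set_option autoImplicit false

namespace Pool.Agent.Lib.MP_1c8ed6_co.Lin

open Finset Pool.Agent.Lib.MP_ae5681_co

variable {V ι : Type*} [DecidableEq V] [DecidableEq ι]

/-- two disjoint connected edge sets with fewer edges than vertices -/
structure DT (W : Finset V) (T1 T2 : Finset ι) (s t : ι → V) : Prop where
  c1 : CO W T1 s t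
  c2 : CO W T2 s t
  dis : Disjoint T1 T2
  n1 : T1.card + 1 ≤ W.card
  n2 : T2.card + 1 ≤ W.card

/-- `U` splits into two balanced connected sets -/
def Goal (W : Finset V) (U : Finset ι) (s t : ι → V) : Prop :=
  ∃ S1 S2, DT W S1 S2 s t ∧ S1 ∪ S2 = U ∧
    ∀ v, dg S1 s t v ≤ dg S2 s t v + 6 ∧ dg S2 s t v ≤ dg S1 s t v + 6

/-- the induction hypothesis -/
def IH (V ι : Type*) [DecidableEq V] [DecidableEq ι] (n : ℕ) : Prop :=
  ∀ (W : Finset V) (s t : ι → V) (T1 T2 : Finset ι), W.card < n → DT W T1 T2 s t →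
    Goal W (T1 ∪ T2) s t

variable {W : Finset V} {T1 T2 S1 S2 U : Finset ι} {s t s' t' : ι → V} {e1 e2 e3 e4 : ι}
  {x y v a b c : V}

omit [DecidableEq V] [DecidableEq ι] in
lemma DT.symm (h : DT W T1 T2 s t) : DT W T2 T1 s t := ⟨h.c2, h.c1, h.dis.symm, h.n2, h.n1⟩

lemma goal_of_big (h : DT W S1 S2 s t) (hU : S1 ∪ S2 = U)
    (hb : ∀ v, 9 ≤ dg U s t v → dg S1 s t v ≤ dg S2 s t v + 6 ∧ dg S2 s t v ≤ dg S1 s t v + 6) :
    Goal W U s t := by
  refine ⟨S1, S2, h, hU, fun v => ?_⟩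
  by_cases h1 : 9 ≤ dg U s t v
  · exact hb v h1
  rw [← hU, dg_union h.dis] at h1
  by_cases h2 : 2 ≤ W.card
  · by_cases h3 : v ∈ W
    · have := h.c1.one_le h2 h3
      have := h.c2.one_le h2 h3
      omega
    · have := h.c1.dg_out h3
      have := h.c2.dg_out h3
      omega
  · have a1 := h.n1
    have a2 := h.n2
    have a3 : S1 = ∅ := card_eq_zero.1 (by omega)
    have a4 : S2 = ∅ := card_eq_zero.1 (by omega)
    simp [a3, a4]

lemma DT.add2 (h : DT (W.erase x) S1 S2 s t) (hx : x ∈ W) (h1 : Joins s t e1 x a)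
    (h2 : Joins s t e2 x b) (ha : a ∈ W.erase x) (hb : b ∈ W.erase x) (n1 : e1 ∉ S1 ∪ S2)
    (n2 : e2 ∉ S1 ∪ S2) (hne : e1 ≠ e2) : DT W (insert e1 S1) (insert e2 S2) s t := by
  have a1 := h.n1
  have a2 := h.n2
  have a3 := card_erase_add_one hx
  have a4 := card_insert_le e1 S1
  have a5 := card_insert_le e2 S2
  rw [mem_union, not_or] at n1 n2
  refine ⟨h.c1.add_leaf hx h1 ha, h.c2.add_leaf hx h2 hb, ?_, by omega, by omega⟩
  simp [disjoint_insert_left, disjoint_insert_right, h.dis, n1.2, n2.1, hne.symm]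

lemma DT.del2 (h : DT W T1 T2 s t) (m1 : e1 ∈ T1) (m2 : e2 ∈ T2) (h1 : Joins s t e1 x a)
    (h2 : Joins s t e2 x b) (ha : a ≠ x) (hb : b ≠ x) (f1 : Free (T1.erase e1) s t x)
    (f2 : Free (T2.erase e2) s t x) : DT (W.erase x) (T1.erase e1) (T2.erase e2) s t := by
  have a1 := h.n1
  have a2 := h.n2
  have a3 := card_erase_add_one (h.c1.mem m1 h1).1
  have a4 := card_erase_add_one m1
  have a5 := card_erase_add_one m2
  exact ⟨h.c1.del_leaf m1 h1 ha f1, h.c2.del_leaf m2 h2 hb f2,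
    h.dis.mono (erase_subset _ _) (erase_subset _ _), by omega, by omega⟩

omit [DecidableEq V] in
lemma union_fix (hd : Disjoint T1 T2) (m1 : e1 ∈ T1) (m2 : e2 ∈ T2)
    (hU : S1 ∪ S2 = T1.erase e1 ∪ T2.erase e2) :
    e1 ≠ e2 ∧ e1 ∉ S1 ∪ S2 ∧ e2 ∉ S1 ∪ S2 ∧ insert e1 S1 ∪ insert e2 S2 = T1 ∪ T2 ∧
      insert e2 S1 ∪ insert e1 S2 = T1 ∪ T2 := by
  have a1 : e1 ∉ T2 := disjoint_left.1 hd m1
  have a2 : e2 ∉ T1 := disjoint_right.1 hd m2
  have a3 : insert e1 (insert e2 (S1 ∪ S2)) = T1 ∪ T2 := by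
    rw [hU]
    ext f
    by_cases b1 : f = e1 <;> by_cases b2 : f = e2 <;> simp [b1, b2, m1, m2]
  refine ⟨fun h => a1 (h ▸ m2), by simp [hU, a1], by simp [hU, a2], ?_, ?_⟩
  · rw [← a3, insert_union, union_insert]
  · rw [← a3, insert_union, union_insert, Finset.insert_comm]

/-- a vertex of degree two with a small neighbour or a double edge -/
lemma red2a (ih : IH V ι W.card) (h : DT W T1 T2 s t) (m1 : e1 ∈ T1) (m2 : e2 ∈ T2)
    (h1 : Joins s t e1 x a) (h2 : Joins s t e2 x b) (ha : a ≠ x) (hb : b ≠ x)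
    (f1 : Free (T1.erase e1) s t x) (f2 : Free (T2.erase e2) s t x)
    (hs : a = b ∨ dg (T1 ∪ T2) s t b ≤ 8) : Goal W (T1 ∪ T2) s t := by
  obtain ⟨hx, ha'⟩ := h.c1.mem m1 h1
  have hb' := (h.c2.mem m2 h2).2
  obtain ⟨S1, S2, k1, k2, k3⟩ := ih _ s t _ _ (card_erase_lt_of_mem hx)
    (h.del2 m1 m2 h1 h2 ha hb f1 f2)
  obtain ⟨u1, u2, u3, u4, u5⟩ := union_fix h.dis m1 m2 k2
  have u6 := u2
  have u7 := u3
  rw [mem_union, not_or] at u6 u7
  have hbv : ∀ v, 9 ≤ dg (T1 ∪ T2) s t v → b = v → a = v := by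
    rintro v hv rfl
    exact hs.resolve_right (by omega)
  rcases le_total (dg S1 s t a) (dg S2 s t a) with h3 | h3
  · refine goal_of_big (k1.add2 hx h1 h2 (mem_erase.2 ⟨ha, ha'⟩) (mem_erase.2 ⟨hb, hb'⟩) u2 u3 u1)
      u4 fun v hv => ?_
    have := k3 v
    rw [dg_insert u6.1, dg_insert u7.2, wt_joins h1, wt_joins h2]
    by_cases b2 : b = v
    · rw [if_pos b2, if_pos (hbv v hv b2)]
      omega
    · by_cases b1 : a = v
      · rw [if_neg b2, if_pos b1]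
        rw [b1] at h3
        omega
      · rw [if_neg b2, if_neg b1]
        omega
  · refine goal_of_big (k1.add2 hx h2 h1 (mem_erase.2 ⟨hb, hb'⟩) (mem_erase.2 ⟨ha, ha'⟩) u3 u2
      u1.symm) u5 fun v hv => ?_
    have := k3 v
    rw [dg_insert u7.1, dg_insert u6.2, wt_joins h1, wt_joins h2]
    by_cases b2 : b = v
    · rw [if_pos b2, if_pos (hbv v hv b2)]
      omega
    · by_cases b1 : a = v
      · rw [if_neg b2, if_pos b1]
        rw [b1] at h3
        omega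
      · rw [if_neg b2, if_neg b1]
        omega

/-- the two edges at a vertex of degree two can be swapped -/
lemma DT.swap2 (h : DT W T1 T2 s t) (m1 : e1 ∈ T1) (m2 : e2 ∈ T2)
    (h1 : Joins s t e1 x a) (h2 : Joins s t e2 x b) (ha : a ≠ x) (hb : b ≠ x)
    (f1 : Free (T1.erase e1) s t x) (f2 : Free (T2.erase e2) s t x) :
    DT W (insert e2 (T1.erase e1)) (insert e1 (T2.erase e2)) s t ∧
      insert e2 (T1.erase e1) ∪ insert e1 (T2.erase e2) = T1 ∪ T2 := by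
  obtain ⟨hx, ha'⟩ := h.c1.mem m1 h1
  have hb' := (h.c2.mem m2 h2).2
  obtain ⟨u1, u2, u3, -, u5⟩ := union_fix h.dis m1 m2 rfl
  exact ⟨(h.del2 m1 m2 h1 h2 ha hb f1 f2).add2 hx h2 h1 (mem_erase.2 ⟨hb, hb'⟩)
    (mem_erase.2 ⟨ha, ha'⟩) u3 u2 u1.symm, u5⟩

/-- the structure at a vertex of degree two -/
lemma DT.two (h : DT W T1 T2 s t) (hW : 2 ≤ W.card) (hx : x ∈ W)
    (hd : dg (T1 ∪ T2) s t x = 2) :
    ∃ e1 ∈ T1, ∃ e2 ∈ T2, ∃ a b, Joins s t e1 x a ∧ Joins s t e2 x b ∧ a ≠ x ∧ b ≠ x ∧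
      Free (T1.erase e1) s t x ∧ Free (T2.erase e2) s t x := by
  rw [dg_union h.dis] at hd
  have a1 := h.c1.one_le hW hx
  have a2 := h.c2.one_le hW hx
  obtain ⟨e1, m1, a, h1, h2, h3⟩ := exists_of_dg_one (R := T1) (s := s) (t := t) (x := x) (by omega)
  obtain ⟨e2, m2, b, h4, h5, h6⟩ := exists_of_dg_one (R := T2) (s := s) (t := t) (x := x) (by omega)
  exact ⟨e1, m1, e2, m2, a, b, h1, h4, h2, h5, h3, h6⟩

omit [DecidableEq V] [DecidableEq ι] in
lemma joins_end {e : ι} (h : Joins s t e x a) : s e = x ∨ t e = x := by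
  rcases h with h | h
  · exact Or.inl h.1
  · exact Or.inr h.2

omit [DecidableEq V] [DecidableEq ι] in
lemma joins_uniq {e : ι} (h : Joins s t e x a) (h' : Joins s t e x b) : a = b := by
  rcases h with ⟨h1, h2⟩ | ⟨h1, h2⟩ <;> rcases h' with ⟨h3, h4⟩ | ⟨h3, h4⟩
  · rw [← h2, h4]
  · rw [← h2, h4, ← h1, h3]
  · rw [← h1, h3, ← h2, h4]
  · rw [← h1, h3]

omit [DecidableEq V] in
lemma Free.eq {e f : ι} {R : Finset ι} (h : Free (R.erase e) s t x) (hf : f ∈ R)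
    (hj : Joins s t f x a) : f = e := by
  by_contra h1
  have := h f (mem_erase.2 ⟨h1, hf⟩)
  rcases joins_end hj with h2 | h2
  · exact this.1 h2
  · exact this.2 h2

/-- a prescribed edge at a vertex of degree two can be put into the first set -/
lemma DT.two' (h : DT W T1 T2 s t) (hW : 2 ≤ W.card) (hd : dg (T1 ∪ T2) s t x = 2)
    (m : e1 ∈ T1 ∪ T2) (h1 : Joins s t e1 x a) :
    ∃ R1 R2, DT W R1 R2 s t ∧ R1 ∪ R2 = T1 ∪ T2 ∧ e1 ∈ R1 ∧ ∃ e2 ∈ R2, ∃ b, Joins s t e2 x b ∧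
      a ≠ x ∧ b ≠ x ∧ Free (R1.erase e1) s t x ∧ Free (R2.erase e2) s t x ∧
      ∀ f, f ≠ e1 → f ≠ e2 → (f ∈ R1 ↔ f ∈ T1) ∧ (f ∈ R2 ↔ f ∈ T2) := by
  have hx : x ∈ W := by
    rcases mem_union.1 m with m | m
    · exact (h.c1.mem m h1).1
    · exact (h.c2.mem m h1).1
  obtain ⟨f1, m1, f2, m2, p, q, j1, j2, n1, n2, r1, r2⟩ := h.two hW hx hd
  rcases mem_union.1 m with m | m
  · obtain rfl := r1.eq m h1
    obtain rfl := joins_uniq h1 j1
    exact ⟨T1, T2, h, rfl, m, f2, m2, q, j2, n1, n2, r1, r2, fun _ _ _ => ⟨Iff.rfl, Iff.rfl⟩⟩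
  · obtain rfl := r2.eq m h1
    obtain rfl := joins_uniq h1 j2
    obtain ⟨k1, k2⟩ := h.swap2 m1 m j1 h1 n1 n2 r1 r2
    have a1 : e1 ∉ T1 := disjoint_right.1 h.dis m
    have a2 : f1 ∉ T2 := disjoint_left.1 h.dis m1
    refine ⟨_, _, k1, k2, mem_insert_self _ _, f1, mem_insert_self _ _, p, j1, n2, n1, ?_, ?_,
      fun f b1 b2 => by simp [b1, b2]⟩
    · rwa [erase_insert (fun h => a1 (mem_of_mem_erase h))]
    · rwa [erase_insert (fun h => a2 (mem_of_mem_erase h))]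

/-- two vertices of degree two with a common neighbour, normalised -/
lemma red2b' (ih : IH V ι W.card) (h : DT W T1 T2 s t) (m1 : e1 ∈ T2) (m2 : e2 ∈ T1)
    (m3 : e3 ∈ T1) (m4 : e4 ∈ T2) (h1 : Joins s t e1 x v) (h2 : Joins s t e2 x a)
    (h3 : Joins s t e3 y v) (h4 : Joins s t e4 y b) (hxy : x ≠ y) (hvx : v ≠ x) (hvy : v ≠ y)
    (hbx : b ≠ x) (hby : b ≠ y) (f1 : Free (T2.erase e1) s t x) (f2 : Free (T1.erase e2) s t x)
    (f3 : Free (T1.erase e3) s t y) (f4 : Free (T2.erase e4) s t y) :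
    Goal W (T1 ∪ T2) s t := by
  obtain ⟨hx, hv⟩ := h.c2.mem m1 h1
  obtain ⟨hy, hb⟩ := h.c2.mem m4 h4
  have d0 := h.del2 m3 m4 h3 h4 hvy hby f3 f4
  have n14 : e1 ≠ e4 := by
    rintro rfl
    rcases h1 with ⟨a1, a2⟩ | ⟨a1, a2⟩ <;> rcases h4 with ⟨a3, a4⟩ | ⟨a3, a4⟩ <;> simp_all
  have n23 : e2 ≠ e3 := by
    rintro rfl
    rcases h2 with ⟨a1, a2⟩ | ⟨a1, a2⟩ <;> rcases h3 with ⟨a3, a4⟩ | ⟨a3, a4⟩ <;> simp_all
  have d1 : e1 ∉ T1 := disjoint_right.1 h.dis m1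
  have d2 : e2 ∉ T2 := disjoint_left.1 h.dis m2
  have d3 : e3 ∉ T2 := disjoint_left.1 h.dis m3
  have d4 : e4 ∉ T1 := disjoint_right.1 h.dis m4
  have hx' : x ∈ W.erase y := mem_erase.2 ⟨hxy, hx⟩
  have m1' : e1 ∈ T2.erase e4 := mem_erase.2 ⟨n14, m1⟩
  set s' := Function.update s e4 x with hs'
  set t' := Function.update t e4 b with ht'
  have hj : Joins s' t' e4 x b := Or.inl ⟨by simp [hs'], by simp [ht']⟩
  have hs : ∀ f, f ≠ e4 → s' f = s f ∧ t' f = t f := fun f hf => by simp [hs', ht', hf]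
  have c0 : CO ((W.erase y).erase x) ((T2.erase e4).erase e1) s t :=
    d0.c2.del_leaf m1' h1 hvx fun f hf => f1 f (by
      simp only [mem_erase] at hf ⊢; exact ⟨hf.1, hf.2.2⟩)
  have d5 : DT (W.erase y) (T1.erase e3) (insert e4 ((T2.erase e4).erase e1)) s' t' := by
    refine ⟨d0.c1.congr fun f hf => hs f (by rintro rfl; exact d4 (mem_of_mem_erase hf)),
      (c0.congr fun f hf => hs f (mem_erase.1 (mem_of_mem_erase hf)).1).add_leaf hx' hj
        (mem_erase.2 ⟨hbx, mem_erase.2 ⟨hby, hb⟩⟩), ?_, d0.n1, ?_⟩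
    · rw [disjoint_insert_right]
      exact ⟨fun h => d4 (mem_of_mem_erase h), d0.dis.mono_right (erase_subset _ _)⟩
    · have a1 := d0.n2
      have a2 := card_erase_add_one m1'
      have a3 := card_insert_le e4 ((T2.erase e4).erase e1)
      omega
  have hW : 2 ≤ (W.erase y).card :=
    one_lt_card.2 ⟨x, hx', v, mem_erase.2 ⟨hvy, hv⟩, hvx.symm⟩
  have key : ∀ S1 S2, DT (W.erase y) S1 S2 s' t' →
      S1 ∪ S2 = T1.erase e3 ∪ insert e4 ((T2.erase e4).erase e1) →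
      (∀ u, dg S1 s' t' u ≤ dg S2 s' t' u + 6 ∧ dg S2 s' t' u ≤ dg S1 s' t' u + 6) → e4 ∈ S2 →
      Goal W (T1 ∪ T2) s t := by
    intro S1 S2 k1 k2 k3 k4
    have k5 : e4 ∉ S1 := disjoint_right.1 k1.dis k4
    have hmem : ∀ f, f ∈ S1 ∪ S2 ↔ f ≠ e1 ∧ f ≠ e3 ∧ f ∈ T1 ∪ T2 := by
      intro f
      rw [k2]
      by_cases b1 : f = e1
      · simp [b1, d1, n14]
      by_cases b3 : f = e3
      · have : e3 ≠ e4 := fun h => d3 (h ▸ m4)
        simp [b3, d3, this]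
      by_cases b4 : f = e4
      · subst b4
        simp [b1, b3, m4]
      · simp [b1, b3, b4]
    have hfx : ∀ f ∈ S1 ∪ S2, f ≠ e4 → f ≠ e2 → s' f ≠ x ∧ t' f ≠ x := by
      intro f hf b4 b2
      obtain ⟨b1, -, b5⟩ := (hmem f).1 hf
      rw [(hs f b4).1, (hs f b4).2]
      rcases mem_union.1 b5 with b5 | b5
      · exact f2 f (mem_erase.2 ⟨b2, b5⟩)
      · exact f1 f (mem_erase.2 ⟨b1, b5⟩)
    have k6 : e2 ∈ S1 := by
      obtain ⟨f, b1, p, b2, -⟩ := k1.c1.exists_edge hW hx'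
      by_cases b3 : f = e2
      · exact b3 ▸ b1
      · have := hfx f (mem_union_left _ b1) (by rintro rfl; exact k5 b1) b3
        rcases joins_end b2 with b4 | b4
        · exact absurd b4 this.1
        · exact absurd b4 this.2
    have k7 : e2 ∉ S2 := disjoint_left.1 k1.dis k6
    have q1 : e1 ∉ S1 ∪ S2 := fun h => ((hmem _).1 h).1 rfl
    have q3 : e3 ∉ S1 ∪ S2 := fun h => ((hmem _).1 h).2.1 rfl
    rw [mem_union, not_or] at q1 q3
    have n13 : e1 ≠ e3 := fun h => d1 (h ▸ m3)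
    have n34 : e3 ≠ e4 := fun h => d4 (h ▸ m3)
    have g1 : ∀ f ∈ S1, s f = s' f ∧ t f = t' f := fun f hf =>
      ⟨(hs f (by rintro rfl; exact k5 hf)).1.symm, (hs f (by rintro rfl; exact k5 hf)).2.symm⟩
    have g2 : ∀ f ∈ S2.erase e4, s f = s' f ∧ t f = t' f := fun f hf =>
      ⟨(hs f (mem_erase.1 hf).1).1.symm, (hs f (mem_erase.1 hf).1).2.symm⟩
    have c2 : CO (W.erase y) (insert e1 (S2.erase e4)) s t :=
      ((k1.c2.del_leaf k4 hj hbx fun f hf => hfx f (mem_union_right _ (mem_of_mem_erase hf))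
        (mem_erase.1 hf).1 (by rintro rfl; exact k7 (mem_of_mem_erase hf))).congr g2).add_leaf hx' h1
        (mem_erase.2 ⟨hvx, mem_erase.2 ⟨hvy, hv⟩⟩)
    have d6 : DT (W.erase y) S1 (insert e1 (S2.erase e4)) s t := by
      refine ⟨k1.c1.congr g1, c2, ?_, k1.n1, ?_⟩
      · rw [disjoint_insert_right]
        exact ⟨q1.1, k1.dis.mono_right (erase_subset _ _)⟩
      · have a1 := k1.n2
        have a2 := card_erase_add_one k4
        have a3 := card_insert_le e1 (S2.erase e4)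
        omega
    have q4 : e4 ∉ insert e1 (S2.erase e4) := by simp [n14.symm]
    refine goal_of_big (d6.add2 hy h3 h4 (mem_erase.2 ⟨hvy, hv⟩) (mem_erase.2 ⟨hby, hb⟩)
      (by simp [q3.1, q3.2, n13.symm]) (by simp [k5, n14.symm]) n34) ?_ fun u _ => ?_
    · ext f
      have := hmem f
      by_cases b1 : f = e1
      · simp [b1, m1]
      by_cases b3 : f = e3
      · simp [b3, m3]
      by_cases b4 : f = e4
      · simp [b4, m4]
      · simpa [b1, b3, b4] using this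
    · have a1 := k3 u
      have a2 := dg_erase (s := s') (t := t') k4 u
      have a3 : dg (T1 ∪ T2) s t x = 2 := by
        rw [dg_union h.dis, ← dg_erase m2, ← dg_erase m1, free_iff.1 f1, free_iff.1 f2,
          wt_joins h1, wt_joins h2, if_pos rfl, if_neg hvx, if_neg]
        rintro rfl
        obtain ⟨f, b1, p, b2, b3⟩ := h.c1.exists_edge (hW.trans (card_erase_le)) hx
        obtain rfl := f2.eq b1 b2
        exact b3 (joins_uniq b2 h2)
      have a4 : dg (T1 ∪ T2) s t y = 2 := by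
        rw [dg_union h.dis, ← dg_erase m3, ← dg_erase m4, free_iff.1 f3, free_iff.1 f4,
          wt_joins h3, wt_joins h4, if_pos rfl, if_neg hvy, if_neg hby]
      have a5 : x ≠ u := by rintro rfl; omega
      have a6 : y ≠ u := by rintro rfl; omega
      rw [dg_insert q3.1, dg_insert q4, dg_insert (fun h => q1.2 (mem_of_mem_erase h)),
        dg_congr g1, dg_congr g2, wt_joins h1, wt_joins h3, wt_joins h4, if_neg a5, if_neg a6]
      rw [wt_joins hj, if_neg a5] at a2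
      omega
  obtain ⟨S1, S2, k1, k2, k3⟩ := ih _ s' t' _ _ (card_erase_lt_of_mem hy) d5
  have : e4 ∈ S1 ∪ S2 := by rw [k2]; simp
  rcases mem_union.1 this with h5 | h5
  · exact key S2 S1 k1.symm (by rw [union_comm, k2]) (fun u => (k3 u).symm) h5
  · exact key S1 S2 k1 k2 k3 h5

/-- a vertex of degree three whose single edge ends at a small vertex -/
lemma red3 (ih : IH V ι W.card) (h : DT W T1 T2 s t) (m1 : e1 ∈ T1) (m2 : e2 ∈ T1) (m3 : e3 ∈ T2)
    (h1 : Joins s t e1 x a) (h2 : Joins s t e2 x b) (h3 : Joins s t e3 x c) (ha : a ≠ x)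
    (hb : b ≠ x) (hc : c ≠ x) (hne : e1 ≠ e2) (f1 : Free ((T1.erase e2).erase e1) s t x)
    (f3 : Free (T2.erase e3) s t x) (hs8 : dg (T1 ∪ T2) s t c ≤ 8) : Goal W (T1 ∪ T2) s t := by
  obtain ⟨hx, hc'⟩ := h.c2.mem m3 h3
  set s' := Function.update s e1 a with hs'
  set t' := Function.update t e1 b with ht'
  have hj : Joins s' t' e1 a b := Or.inl ⟨by simp [hs'], by simp [ht']⟩
  have hs : ∀ f, f ≠ e1 → s' f = s f ∧ t' f = t f := fun f hf => by simp [hs', ht', hf]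
  have d1 : e1 ∉ T2 := disjoint_left.1 h.dis m1
  have m1' : e1 ∈ T1.erase e2 := mem_erase.2 ⟨hne, m1⟩
  have d0 : DT (W.erase x) (T1.erase e2) (T2.erase e3) s' t' := by
    have a1 := h.n1
    have a2 := h.n2
    have a3 := card_erase_add_one hx
    have a4 := card_erase_add_one m2
    have a5 := card_erase_add_one m3
    exact ⟨h.c1.suppress m1 m2 h1 h2 ha hb hne f1 hj hs,
      (h.c2.del_leaf m3 h3 hc f3).congr fun f hf => hs f (by
        rintro rfl; exact d1 (mem_of_mem_erase hf)),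
      h.dis.mono (erase_subset _ _) (erase_subset _ _), by omega, by omega⟩
  have a3 : dg (T1 ∪ T2) s t x = 3 := by
    rw [dg_union h.dis, ← dg_erase m2, ← dg_erase m1', ← dg_erase m3, free_iff.1 f1, free_iff.1 f3,
      wt_joins h1, wt_joins h2, wt_joins h3, if_pos rfl, if_neg ha, if_neg hb, if_neg hc]
  have key : ∀ S1 S2, DT (W.erase x) S1 S2 s' t' → S1 ∪ S2 = T1.erase e2 ∪ T2.erase e3 →
      (∀ u, dg S1 s' t' u ≤ dg S2 s' t' u + 6 ∧ dg S2 s' t' u ≤ dg S1 s' t' u + 6) → e1 ∈ S1 →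
      Goal W (T1 ∪ T2) s t := by
    intro S1 S2 k1 k2 k3 k4
    obtain ⟨u1, u2, u3, u4, -⟩ := union_fix h.dis m2 m3 k2
    rw [mem_union, not_or] at u2 u3
    have k5 : e1 ∉ S2 := disjoint_left.1 k1.dis k4
    have g1 : ∀ f ∈ S1.erase e1, s f = s' f ∧ t f = t' f := fun f hf =>
      ⟨(hs f (mem_erase.1 hf).1).1.symm, (hs f (mem_erase.1 hf).1).2.symm⟩
    have g2 : ∀ f ∈ S2, s f = s' f ∧ t f = t' f := fun f hf =>
      ⟨(hs f (by rintro rfl; exact k5 hf)).1.symm, (hs f (by rintro rfl; exact k5 hf)).2.symm⟩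
    have b1 := k1.n1
    have b2 := k1.n2
    have b3 := card_erase_add_one hx
    have b4 := card_insert_le e2 S1
    have b5 := card_insert_le e3 S2
    refine goal_of_big ⟨k1.c1.subdivide hx k4 h1 h2 hj hs,
      (k1.c2.congr g2).add_leaf hx h3 (mem_erase.2 ⟨hc, hc'⟩), ?_, by omega, by omega⟩ u4
      fun u hu => ?_
    · simp [disjoint_insert_left, disjoint_insert_right, k1.dis, u2.2, u3.1, u1.symm]
    · have a1 := k3 u
      have a2 := dg_erase (s := s') (t := t') k4 u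
      have a5 : x ≠ u := by rintro rfl; omega
      have a6 : c ≠ u := by rintro rfl; omega
      rw [dg_insert u2.1, dg_insert u3.2, ← dg_erase (s := s) (t := t) k4, dg_congr g1,
        dg_congr g2, wt_joins h1, wt_joins h2, wt_joins h3, if_neg a5, if_neg a6]
      rw [wt_joins hj] at a2
      omega
  obtain ⟨S1, S2, k1, k2, k3⟩ := ih _ s' t' _ _ (card_erase_lt_of_mem hx) d0
  have : e1 ∈ S1 ∪ S2 := by rw [k2]; exact mem_union_left _ m1'
  rcases mem_union.1 this with h5 | h5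
  · exact key S1 S2 k1 k2 k3 h5
  · exact key S2 S1 k1.symm (by rw [union_comm, k2]) (fun u => (k3 u).symm) h5

/-- two vertices of degree two with a common neighbour -/
lemma red2b (ih : IH V ι W.card) (h : DT W T1 T2 s t) (m1 : e1 ∈ T1 ∪ T2) (m3 : e3 ∈ T1 ∪ T2)
    (h1 : Joins s t e1 x v) (h3 : Joins s t e3 y v) (hxy : x ≠ y) (dx : dg (T1 ∪ T2) s t x = 2)
    (dy : dg (T1 ∪ T2) s t y = 2) (hW : 2 ≤ W.card)
    (hn : ∀ f ∈ T1 ∪ T2, ¬ Joins s t f y x) : Goal W (T1 ∪ T2) s t := by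
  obtain ⟨R2, R1, k1, k2, k3, e2, k4, a, k5, k6, -, k8, k9, -⟩ := h.two' hW dx m1 h1
  have hU : R1 ∪ R2 = T1 ∪ T2 := by rw [union_comm, k2]
  obtain ⟨Q1, Q2, l1, l2, l3, e4, l4, b, l5, l6, l7, l8, l9, l10⟩ := k1.symm.two' hW
    (by rw [hU]; exact dy) (by rw [hU]; exact m3) h3
  have hb : b ≠ x := by
    rintro rfl
    exact hn e4 (by rw [← hU, ← l2]; exact mem_union_right _ l4) l5
  have hv : v ≠ x := k6
  have nx : ∀ {f : ι} {p q : V}, Joins s t f x p → Joins s t f y q → q ≠ x → False := by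
    intro f p q a1 a2 a3
    rcases a1 with ⟨a1, a4⟩ | ⟨a1, a4⟩ <;> rcases a2 with ⟨a5, a6⟩ | ⟨a5, a6⟩
    · exact hxy (a1.symm.trans a5)
    · exact a3 (a5.symm.trans a1)
    · exact a3 (a6.symm.trans a4)
    · exact hxy (a4.symm.trans a6)
  have a1 := l10 e1 (by rintro rfl; exact nx h1 h3 hv) (by rintro rfl; exact nx h1 l5 hb)
  have a2 := l10 e2 (by rintro rfl; exact nx k5 h3 hv) (by rintro rfl; exact nx k5 l5 hb)
  have fx : ∀ f ∈ Q1 ∪ Q2, f ≠ e1 → f ≠ e2 → s f ≠ x ∧ t f ≠ x := by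
    intro f hf b1 b2
    rw [l2] at hf
    rcases mem_union.1 hf with hf | hf
    · exact k9 f (mem_erase.2 ⟨b2, hf⟩)
    · exact k8 f (mem_erase.2 ⟨b1, hf⟩)
  have q1 : e1 ∈ Q2 := a1.2.2 k3
  have q2 : e2 ∈ Q1 := a2.1.2 k4
  rw [← hU, ← l2]
  exact red2b' ih l1 q1 q2 l3 l4 h1 k5 h3 l5 hxy hv l6 hb l7
    (fun f hf => fx f (mem_union_right _ (mem_of_mem_erase hf)) (mem_erase.1 hf).1 (by
      rintro rfl; exact disjoint_left.1 l1.dis q2 (mem_of_mem_erase hf)))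
    (fun f hf => fx f (mem_union_left _ (mem_of_mem_erase hf)) (by
      rintro rfl; exact disjoint_left.1 l1.dis (mem_of_mem_erase hf) q1) (mem_erase.1 hf).1) l8 l9

/-- an irreducible vertex of degree two has two different big neighbours -/
lemma two_big (ih : IH V ι W.card) (h : DT W T1 T2 s t) (hW : 2 ≤ W.card) (hx : x ∈ W)
    (hd : dg (T1 ∪ T2) s t x = 2) (hn : ¬ Goal W (T1 ∪ T2) s t) :
    ∃ e1 ∈ T1 ∪ T2, ∃ e2 ∈ T1 ∪ T2, ∃ a b, Joins s t e1 x a ∧ Joins s t e2 x b ∧ a ≠ b ∧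
      9 ≤ dg (T1 ∪ T2) s t a ∧ 9 ≤ dg (T1 ∪ T2) s t b ∧
      ∀ f ∈ T1 ∪ T2, ∀ p, Joins s t f x p → (f = e1 ∧ p = a) ∨ (f = e2 ∧ p = b) := by
  obtain ⟨e1, m1, e2, m2, a, b, h1, h2, ha, hb, f1, f2⟩ := h.two hW hx hd
  refine ⟨e1, mem_union_left _ m1, e2, mem_union_right _ m2, a, b, h1, h2,
    fun h3 => hn (red2a ih h m1 m2 h1 h2 ha hb f1 f2 (Or.inl h3)), ?_, ?_, fun f hf p hp => ?_⟩
  · by_contra h3
    apply hn
    rw [union_comm] at h3 ⊢
    exact red2a ih h.symm m2 m1 h2 h1 hb ha f2 f1 (Or.inr (by omega))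
  · by_contra h3
    exact hn (red2a ih h m1 m2 h1 h2 ha hb f1 f2 (Or.inr (by omega)))
  · rcases mem_union.1 hf with hf | hf
    · obtain rfl := f1.eq hf hp
      exact Or.inl ⟨rfl, joins_uniq hp h1⟩
    · obtain rfl := f2.eq hf hp
      exact Or.inr ⟨rfl, joins_uniq hp h2⟩

/-- an irreducible vertex of degree three has two edges to big vertices -/
lemma three_big' (ih : IH V ι W.card) (h : DT W T1 T2 s t) (hW : 2 ≤ W.card) (hx : x ∈ W)
    (d1 : dg T1 s t x = 2) (d2 : dg T2 s t x = 1) (hn : ¬ Goal W (T1 ∪ T2) s t) :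
    ∃ e1 ∈ T1 ∪ T2, ∃ e2 ∈ T1 ∪ T2, ∃ a b, Joins s t e1 x a ∧ Joins s t e2 x b ∧ e1 ≠ e2 ∧
      9 ≤ dg (T1 ∪ T2) s t a ∧ 9 ≤ dg (T1 ∪ T2) s t b := by
  obtain ⟨e3, m3, c, h3, hc, f3⟩ := exists_of_dg_one d2
  obtain ⟨e2, m2, b, h2, hb⟩ := h.c1.exists_edge hW hx
  have a1 := dg_erase (s := s) (t := t) m2 x
  rw [wt_joins h2, if_pos rfl, if_neg hb] at a1
  obtain ⟨e1, m1', a, h1, ha, f1⟩ := exists_of_dg_one (R := T1.erase e2) (s := s) (t := t) (x := x)
    (by omega)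
  obtain ⟨hne, m1⟩ := mem_erase.1 m1'
  have big : 9 ≤ dg (T1 ∪ T2) s t c := by
    by_contra h4
    exact hn (red3 ih h m1 m2 m3 h1 h2 h3 ha hb hc hne f1 f3 (by omega))
  have d3 : e3 ∉ T1 := disjoint_right.1 h.dis m3
  have key : ∀ {e1 e2 : ι} {a b : V}, e1 ∈ T1 → e2 ∈ T1 → Joins s t e1 x a → Joins s t e2 x b →
      a ≠ x → b ≠ x → e1 ≠ e2 → Free ((T1.erase e2).erase e1) s t x →
      CO W (insert e3 (T1.erase e1)) s t → 9 ≤ dg (T1 ∪ T2) s t a := by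
    intro e1 e2 a b m1 m2 h1 h2 ha hb hne f1 hco
    by_contra h4
    obtain ⟨u1, -, -, -, u5⟩ := union_fix h.dis m1 m3 rfl
    have d1 : e1 ∉ T2 := disjoint_left.1 h.dis m1
    have b1 := h.n1
    have b2 := h.n2
    have b3 := card_erase_add_one m1
    have b4 := card_erase_add_one m3
    have b5 := card_insert_le e3 (T1.erase e1)
    have b6 := card_insert_le e1 (T2.erase e3)
    have n23 : e3 ≠ e2 := fun h => d3 (h ▸ m2)
    have k : DT W (insert e3 (T1.erase e1)) (insert e1 (T2.erase e3)) s t := by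
      refine ⟨hco, (h.c2.del_leaf m3 h3 hc f3).add_leaf hx h1
        (mem_erase.2 ⟨ha, (h.c1.mem m1 h1).2⟩), ?_, by omega, by omega⟩
      have := h.dis.mono (erase_subset e1 T1) (erase_subset e3 T2)
      simp [disjoint_insert_left, disjoint_insert_right, this, u1]
    apply hn
    rw [← u5] at h4 ⊢
    refine red3 ih k (mem_insert_self _ _) (mem_insert_of_mem (mem_erase.2 ⟨hne.symm, m2⟩))
      (mem_insert_self _ _) h3 h2 h1 hc hb ha n23 (fun f hf => f1 f ?_) ?_ (by omega)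
    · simp only [mem_erase, mem_insert] at hf ⊢
      tauto
    · rwa [erase_insert (fun h => d1 (mem_of_mem_erase h))]
  rcases h.c1.exchange m1 m2 h1 h2 hne f1 h3 (mem_erase.2 ⟨hc, (h.c2.mem m3 h3).2⟩) with h4 | h4
  · exact ⟨e1, mem_union_left _ m1, e3, mem_union_right _ m3, a, c, h1, h3,
      fun h => d3 (h ▸ m1), key m1 m2 h1 h2 ha hb hne f1 h4, big⟩
  · exact ⟨e2, mem_union_left _ m2, e3, mem_union_right _ m3, b, c, h2, h3,
      fun h => d3 (h ▸ m2), key m2 m1 h2 h1 hb ha hne.symm (by rwa [erase_right_comm]) h4, big⟩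

lemma three_big (ih : IH V ι W.card) (h : DT W T1 T2 s t) (hW : 2 ≤ W.card) (hx : x ∈ W)
    (hd : dg (T1 ∪ T2) s t x = 3) (hn : ¬ Goal W (T1 ∪ T2) s t) :
    ∃ e1 ∈ T1 ∪ T2, ∃ e2 ∈ T1 ∪ T2, ∃ a b, Joins s t e1 x a ∧ Joins s t e2 x b ∧ e1 ≠ e2 ∧
      9 ≤ dg (T1 ∪ T2) s t a ∧ 9 ≤ dg (T1 ∪ T2) s t b := by
  have hd' := hd
  rw [dg_union h.dis] at hd'
  have a1 := h.c1.one_le hW hx
  have a2 := h.c2.one_le hW hx
  by_cases h1 : dg T1 s t x = 2
  · exact three_big' ih h hW hx h1 (by omega) hn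
  · rw [union_comm] at hn ⊢
    exact three_big' ih h.symm hW hx (by omega) (by omega) hn

end Pool.Agent.Lib.MP_1c8ed6_co.Lin
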