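import Pool.Agent.Lib.MP_1c8ed6_co.Lin.Frame

/-! An orientation and a partition of the arcs into classes, with linear connectivity. -/

set_option autoImplicit false

namespace Pool.Agent.Lib.MP_1c8ed6_co.Lin

open Finset Pool.Agent.Lib.MP_ae5681_co

variable {V ι J : Type*} [Fintype V] [DecidableEq V] [Fintype ι] [DecidableEq ι]

/-- Global pairs from the jobs. -/
lemma exists_tok_pairs {Tok : Type*} [DecidableEq Tok] (side : V → Bool) (tl hd : ι → V)
    (Us : Finset ι) (w : ι → Tok × Bool) (hUs : ∀ e ∈ Us, side (hd e) ≠ side (tl e))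
    (hc : ∀ σ jb, Conn (Us.filter (fun e => side (tl e) = σ ∧ w e = jb)) tl hd) :
    ∃ (P : Finset ι) (mate : ι → ι), Set.InjOn mate P ∧
      (∀ e ∈ P, e ∈ Us ∧ mate e ∈ Us ∧ mate e ∉ P ∧ (w (mate e)).1 = (w e).1 ∧
        tl (mate e) = tl e) ∧
      ∀ σ τ, ∀ A ⊆ univ.filter (fun v => side v ≠ σ), A.Nonempty →
        A ≠ univ.filter (fun v => side v ≠ σ) →
          ∃ e ∈ P, side (tl e) = σ ∧ (w e).1 = τ ∧ ¬ (hd e ∈ A ↔ hd (mate e) ∈ A) := by
  have hmem : ∀ σ τ e, e ∈ Us.filter (fun e => side (tl e) = σ ∧ w e = (τ, true)) ∪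
      Us.filter (fun e => side (tl e) = σ ∧ w e = (τ, false)) →
      e ∈ Us ∧ side (tl e) = σ ∧ (w e).1 = τ := by
    intro σ τ e he
    rcases mem_union.1 he with h | h <;> obtain ⟨a1, a2, a3⟩ := mem_filter.1 h <;>
      rw [a3] <;> exact ⟨a1, a2, rfl⟩
  have h1 := fun (σ : Bool) (τ : Tok) => exists_pairs (hc σ (τ, true)) (hc σ (τ, false))
    (disjoint_left.2 fun e he he' => by
      have a1 := (mem_filter.1 he).2.2
      have a2 := (mem_filter.1 he').2.2
      rw [a1] at a2
      simp at a2)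
    (univ.filter (fun v => side v ≠ σ)) (fun e he => by
      obtain ⟨a1, a2, -⟩ := hmem σ τ e he
      simp only [mem_filter, mem_univ, true_and, not_not]
      exact ⟨a2, a2 ▸ hUs e a1⟩)
  choose Pl mt hP1 hP2 hP3 hP4 using h1
  refine ⟨univ.filter (fun e => e ∈ Pl (side (tl e)) (w e).1),
    fun e => mt (side (tl e)) (w e).1 e, fun e he e' he' h => ?_, fun e he => ?_,
    fun σ τ A hA h2 h3 => ?_⟩
  · obtain ⟨-, a1⟩ := mem_filter.1 he
    obtain ⟨-, a2⟩ := mem_filter.1 he'
    obtain ⟨-, b1, b2⟩ := hmem _ _ _ (hP2 _ _ e a1).1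
    obtain ⟨-, c1, c2⟩ := hmem _ _ _ (hP2 _ _ e' a2).1
    simp only at h
    rw [h] at b1 b2
    have d1 := c1.symm.trans b1
    have d2 := c2.symm.trans b2
    rw [d1, d2] at a2 h
    exact hP3 _ _ a1 a2 h
  · obtain ⟨-, a1⟩ := mem_filter.1 he
    obtain ⟨c0, c1, c2⟩ := hP2 _ _ e a1
    obtain ⟨d0, d1, d2⟩ := hmem _ _ _ c0
    refine ⟨(hmem _ _ _ (hP1 _ _ a1)).1, d0, fun h => c1 ?_, d2, c2⟩
    have := (mem_filter.1 h).2
    rwa [d1, d2] at this
  · obtain ⟨e, he, h4⟩ := hP4 σ τ A hA h2 h3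
    obtain ⟨-, b1, b2⟩ := hmem _ _ _ (hP1 _ _ he)
    refine ⟨e, mem_filter.2 ⟨mem_univ _, by rwa [b1, b2]⟩, b1, b2, ?_⟩
    simp only [b1, b2]
    exact h4

/-- An orientation and a partition of the arcs into classes with equitable degrees. -/
theorem exists_classes [Fintype J] [DecidableEq J] [Nonempty V] (s t : ι → V) (a b : J → ℕ)
    (hb : ∀ j, 1 ≤ b j) (hba : ∀ j, b j ∣ a j) (ha : ∀ j, 1 ≤ a j) (l : J) (hl : b l = 1)
    (μ : J → J) (ρ : J → ℕ) (hρ : Function.Injective ρ) (hμ : ∀ j, j ≠ l → ρ (μ j) < ρ j)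
    (hload : ∀ i, ∑ j ∈ univ.filter (fun j => j ≠ l ∧ μ j = i), b j ≤ 3 * a i)
    (m D : ℕ) (hm : ∑ j, a j = m)
    (hcut : ∀ A : Finset V, A.Nonempty → A ≠ univ → 1000 * m ≤ cutN univ s t A)
    (hdeg : ∀ v, 84000 * m ^ 2 + 20 * m * D ≤ cutN univ s t {v}) (hdvd : m ∣ Fintype.card ι) :
    ∃ (tl hd : ι → V) (q : V → ℕ) (cls : ι → J), (∀ e, Joins s t e (tl e) (hd e)) ∧
      (∀ v, D ≤ q v) ∧
      (∀ v j, (univ.filter (fun e => cls e = j ∧ tl e = v)).card = a j * q v) ∧
      (∀ v j, b j ∣ (univ.filter (fun e => cls e = j ∧ hd e = v)).card) ∧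
      ∀ v j, D * a j ≤ (univ.filter (fun e => cls e = j ∧ hd e = v)).card := by
  have hba' : ∀ j, b j ≤ a j := fun j => Nat.le_of_dvd (ha j) (hba j)
  have hbm : ∑ j, b j ≤ m := hm ▸ sum_le_sum fun j _ => hba' j
  have hm1 : 1 ≤ m := (ha l).trans (hm ▸ single_le_sum (fun _ _ => Nat.zero_le _) (mem_univ l))
  have : Inhabited ((Σ j : J, Fin (3 * b j)) × Bool) := ⟨(⟨l, ⟨0, by rw [hl]; norm_num⟩⟩, true)⟩
  have : Inhabited J := ⟨l⟩
  obtain ⟨side, tl, hd, Us, Fr, w, col, lo, u, hj, hout, hUs, hFr, hUF, hc, hu, hcol, hlo⟩ :=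
    exists_frame (Job := (Σ j : J, Fin (3 * b j)) × Bool) s t m D hm1 (by
      simp only [Fintype.card_prod, Fintype.card_sigma, Fintype.card_fin, Fintype.card_bool]
      rw [← mul_sum]
      omega) hcut hdeg hdvd
  obtain ⟨P0, mate, hinj0, hP0, hPc⟩ := exists_tok_pairs side tl hd Us w hUs hc
  set P := P0.filter (fun e => (w e).1.1 ≠ l) with hPdef
  have hinj : Set.InjOn mate P := hinj0.mono (filter_subset _ _)
  have hP : ∀ e ∈ P, e ∈ Us ∧ (w e).1.1 ≠ l ∧ mate e ∈ Us ∧ mate e ∉ P ∧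
      (w (mate e)).1.1 = (w e).1.1 ∧ tl (mate e) = tl e := by
    intro e he
    obtain ⟨a1, a2⟩ := mem_filter.1 he
    obtain ⟨b1, b2, b3, b4, b5⟩ := hP0 e a1
    exact ⟨b1, a2, b2, fun h => b3 (mem_filter.1 h).1, by rw [b4], b5⟩
  have hw : ∀ v j, (Us.filter (fun e => tl e = v ∧ (w e).1.1 = j)).card ≤ 6 * b j * u v := by
    intro v j
    have h1 := card_le_mul_card_image_of_maps_to (f := w)
      (s := Us.filter (fun e => tl e = v ∧ (w e).1.1 = j))
      (t := univ.image (fun x : Fin (3 * b j) × Bool =>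
        ((⟨j, x.1⟩ : Σ j : J, Fin (3 * b j)), x.2)))
      (fun e he => by
        have h2 := (mem_filter.1 he).2.2
        subst h2
        exact mem_image.2 ⟨((w e).1.2, (w e).2), mem_univ _, rfl⟩) (u v)
      (fun jb _ => le_trans (card_le_card fun e he => by
        obtain ⟨a1, a2⟩ := mem_filter.1 he
        obtain ⟨a3, a4, -⟩ := mem_filter.1 a1
        exact mem_filter.2 ⟨a3, a4, a2⟩) (hu v jb))
    refine h1.trans ?_
    rw [mul_comm]
    refine Nat.mul_le_mul_right _ (card_image_le.trans (le_of_eq ?_))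
    simp
    ring
  choose q hq using hout
  have hq4 : ∀ v, 4 * lo v ≤ q v := by
    intro v
    have h1 : (Fr.filter (fun e => tl e = v ∧ col e < 4 * m)).card ≤ m * q v := by
      rw [← hq]
      exact card_le_card fun e he => mem_filter.2 ⟨mem_univ _, (mem_filter.1 he).2.1⟩
    rw [card_fib _ (range (4 * m)) col (fun e he => mem_range.2 (mem_filter.1 he).2.2)] at h1
    have h2 : ∑ _i ∈ range (4 * m), lo v ≤ ∑ i ∈ range (4 * m),
        ((Fr.filter (fun e => tl e = v ∧ col e < 4 * m)).filter (fun e => col e = i)).card := by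
      refine sum_le_sum fun i hi => (hcol i (mem_range.1 hi) v).1.trans (card_le_card ?_)
      intro e he
      obtain ⟨a1, a2, a3⟩ := mem_filter.1 he
      exact mem_filter.2 ⟨mem_filter.2 ⟨a1, a2, a3 ▸ mem_range.1 hi⟩, a3⟩
    rw [sum_const, card_range, smul_eq_mul] at h2
    exact Nat.le_of_mul_le_mul_left (by nlinarith) hm1
  obtain ⟨cl, -, hcl⟩ := exists_quota1 (range m) (univ : Finset J) a (by rw [hm, card_range])
  set Sp := Fr.filter (fun e => col e = m) with hSp
  set Pre := Fr.filter (fun e => col e ≤ m) ∪ P ∪ P.image mate with hPre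
  set pre : ι → J := fun e => if e ∈ Fr then (if col e < m then cl (col e) else l)
    else if e ∈ P then (w e).1.1 else μ (w e).1.1 with hpre
  have hsmall : ∀ v j, (Pre.filter (fun e => tl e = v ∧ pre e = j)).card ≤ a j * q v := by
    intro v j
    have h1 : Pre.filter (fun e => tl e = v ∧ pre e = j) ⊆
        Fr.filter (fun e => tl e = v ∧ col e < m ∧ cl (col e) = j) ∪
        Fr.filter (fun e => tl e = v ∧ col e = m) ∪
        Us.filter (fun e => tl e = v ∧ (w e).1.1 = j) ∪
        Us.filter (fun e => tl e = v ∧ (w e).1.1 ≠ l ∧ μ (w e).1.1 = j) := by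
      intro e he
      obtain ⟨a1, a2, a3⟩ := mem_filter.1 he
      simp only [mem_union, mem_filter]
      by_cases b1 : e ∈ P
      · have b2 : e ∉ Fr := disjoint_left.1 hUF (hP e b1).1
        simp only [hpre, if_neg b2, if_pos b1] at a3
        exact Or.inl (Or.inr ⟨(hP e b1).1, a2, a3⟩)
      rcases mem_union.1 a1 with a1 | a1
      · obtain ⟨b2, b3⟩ := mem_filter.1 ((mem_union.1 a1).resolve_right b1)
        simp only [hpre, if_pos b2] at a3
        by_cases b4 : col e < m
        · rw [if_pos b4] at a3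
          exact Or.inl (Or.inl (Or.inl ⟨b2, a2, b4, a3⟩))
        · exact Or.inl (Or.inl (Or.inr ⟨b2, a2, by omega⟩))
      · obtain ⟨f, hf, rfl⟩ := mem_image.1 a1
        obtain ⟨-, c2, c3, -, c5, -⟩ := hP f hf
        have b2 : mate f ∉ Fr := disjoint_left.1 hUF c3
        simp only [hpre, if_neg b2, if_neg b1] at a3
        exact Or.inr ⟨c3, a2, by rw [c5]; exact c2, a3⟩
    have h2 : (Fr.filter (fun e => tl e = v ∧ col e < m ∧ cl (col e) = j)).card ≤
        (lo v + (8 * m + 1)) * a j := by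
      rw [← hcl j (mem_univ _)]
      refine card_le_mul_card_image_of_maps_to (f := col) (fun e he => ?_) _ fun i hi => ?_
      · obtain ⟨-, -, a1, a2⟩ := mem_filter.1 he
        exact mem_filter.2 ⟨mem_range.2 a1, a2⟩
      · have a1 := mem_range.1 (mem_filter.1 hi).1
        refine le_trans (card_le_card fun e he => ?_) (hcol i (by omega) v).2.1
        obtain ⟨a2, a3⟩ := mem_filter.1 he
        obtain ⟨a4, a5, -⟩ := mem_filter.1 a2
        exact mem_filter.2 ⟨a4, a5, a3⟩
    have h3 := (hcol m (by omega) v).2.1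
    have h4 := hw v j
    have h5 : (Us.filter (fun e => tl e = v ∧ (w e).1.1 ≠ l ∧ μ (w e).1.1 = j)).card ≤
        6 * (3 * a j) * u v := by
      rw [card_fib _ (univ.filter (fun i => i ≠ l ∧ μ i = j)) (fun e => (w e).1.1)
        (fun e he => mem_filter.2 ⟨mem_univ _, (mem_filter.1 he).2.2⟩)]
      calc _ ≤ ∑ i ∈ univ.filter (fun i => i ≠ l ∧ μ i = j), 6 * b i * u v :=
            sum_le_sum fun i _ => le_trans (card_le_card fun e he => by
              obtain ⟨a2, a3⟩ := mem_filter.1 he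
              obtain ⟨a4, a5, -⟩ := mem_filter.1 a2
              exact mem_filter.2 ⟨a4, a5, a3⟩) (hw v i)
        _ = 6 * (∑ i ∈ univ.filter (fun i => i ≠ l ∧ μ i = j), b i) * u v := by
            rw [mul_sum, sum_mul]
        _ ≤ _ := Nat.mul_le_mul_right _ (Nat.mul_le_mul_left _ (hload j))
    have h6 := (card_le_card h1).trans ((card_union_le _ _).trans (Nat.add_le_add_right
      ((card_union_le _ _).trans (Nat.add_le_add_right (card_union_le _ _) _)) _))
    have h7 := (hlo v).1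
    have h8 := hq4 v
    have h9 : b j * u v ≤ a j * u v := Nat.mul_le_mul_right _ (hba' j)
    have h10 : 1 * (lo v + (8 * m + 1)) ≤ a j * (lo v + (8 * m + 1)) :=
      Nat.mul_le_mul_right _ (ha j)
    have h11 : a j * (2 * (lo v + (8 * m + 1)) + 24 * u v) ≤ a j * q v :=
      Nat.mul_le_mul_left _ (by omega)
    nlinarith
  obtain ⟨g, -, hg⟩ := exists_quota (univ \ Pre) tl (univ : Finset J)
    (fun v j => a j * q v - (Pre.filter (fun e => tl e = v ∧ pre e = j)).card) (fun v => by
      have h1 : ∑ j, (a j * q v - (Pre.filter (fun e => tl e = v ∧ pre e = j)).card) +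
          ∑ j, (Pre.filter (fun e => tl e = v ∧ pre e = j)).card = m * q v := by
        rw [← sum_add_distrib, ← hm, sum_mul]
        exact sum_congr rfl fun j _ => Nat.sub_add_cancel (hsmall v j)
      have h2 := card_fib (Pre.filter (fun e => tl e = v)) univ pre (fun _ _ => mem_univ _)
      simp only [filter_filter] at h2
      have h3 : ((univ \ Pre).filter (fun e => tl e = v)).card +
          (Pre.filter (fun e => tl e = v)).card = m * q v := by
        rw [← hq, ← card_union_of_disjoint (disjoint_filter_filter sdiff_disjoint), ← filter_union,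
          sdiff_union_of_subset (subset_univ _)]
      omega)
  set cls0 : ι → J := fun e => if e ∈ Pre then pre e else g e with hcls0
  have hq0 : ∀ v j, (univ.filter (fun e => cls0 e = j ∧ tl e = v)).card = a j * q v := by
    intro v j
    rw [← Nat.sub_add_cancel (hsmall v j), ← hg v j (mem_univ _),
      ← card_union_of_disjoint (disjoint_filter_filter sdiff_disjoint)]
    congr 1
    ext e
    by_cases he : e ∈ Pre <;> simp [hcls0, he, and_comm]
  have hcF : ∀ e ∈ Fr, col e ≤ m → cls0 e = if col e < m then cl (col e) else l := by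
    intro e he h
    have : e ∈ Pre := mem_union_left _ (mem_union_left _ (mem_filter.2 ⟨he, h⟩))
    simp only [hcls0, hpre, if_pos this, if_pos he]
  obtain ⟨cls1, h11, h12, h13⟩ := fix_inside side tl hd b l hl (2 * m) cls0 Sp
    (fun e he => by
      obtain ⟨a1, a2⟩ := mem_filter.1 he
      exact ⟨by rw [hcF e a1 a2.le, if_neg (by omega)], hFr e a1⟩)
    (fun v => by
      have h1 := (hcol m (by omega) v).1
      have h2 := (hlo v).1
      rw [hSp, filter_filter]
      simp only [and_comm] at h1 ⊢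
      omega)
    (by
      calc _ ≤ ∑ x : Bool × J, b x.2 := sum_le_sum fun x _ => (Nat.mod_lt _ (hb x.2)).le
        _ ≤ 2 * m := by
            rw [Fintype.sum_prod_type, Fintype.sum_bool]
            dsimp only
            omega)
  have hcU : ∀ e ∈ Us, cls1 e = cls0 e := fun e he =>
    h13 e (fun h => disjoint_left.1 hUF he (mem_filter.1 h).1) (hUs e he)
  have hcP : ∀ e ∈ P, cls1 e = (w e).1.1 := by
    intro e he
    have b1 : e ∈ Pre := mem_union_left _ (mem_union_right _ he)
    rw [hcU e (hP e he).1]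
    simp only [hcls0, hpre, if_pos b1, if_neg (disjoint_left.1 hUF (hP e he).1), if_pos he]
  obtain ⟨cls2, h21, h22, h23⟩ := fix_all side tl hd b hb l hl μ ρ hρ hμ cls1
    (fun v j => by rw [h11, hq0]; exact (hba j).mul_right _) h12 P mate hinj
    (fun e he => by
      obtain ⟨a1, a2, a3, a4, a5, a6⟩ := hP e he
      refine ⟨by rw [hcP e he]; exact a2, ?_, a4, a6, hUs e a1, a6 ▸ hUs _ a3⟩
      have b1 : mate e ∈ Pre := mem_union_right _ (mem_image_of_mem _ he)
      rw [hcU _ a3, hcP e he]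
      simp only [hcls0, hpre, if_pos b1, if_neg (disjoint_left.1 hUF a3), if_neg a4, a5])
    (fun σ j hj' A hA h1 h2 => by
      choose f f1 f2 f3 f4 using fun r : Fin (3 * b j) => hPc σ ⟨j, r⟩ A hA h1 h2
      have := card_le_card_of_injOn (s := (univ : Finset (Fin (3 * b j))))
        (t := (P.filter (fun e => cls1 e = j ∧ side (tl e) = σ)).filter
          (fun e => ¬ (hd e ∈ A ↔ hd (mate e) ∈ A))) f (fun r _ => by
          have b1 : f r ∈ P := mem_filter.2 ⟨f1 r, by rw [f3 r]; exact hj'⟩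
          exact mem_coe.2 (mem_filter.2 ⟨mem_filter.2 ⟨b1, by rw [hcP _ b1, f3 r], f2 r⟩, f4 r⟩))
        (fun r _ r' _ h => by
          have b1 := (f3 r).symm.trans (h ▸ f3 r')
          simpa using b1)
      simpa [cutN] using this)
  refine ⟨tl, hd, q, cls2, hj, fun v => ?_, fun v j => by rw [h21, h11, hq0], h22, fun y j => ?_⟩
  · have := hq4 v
    have := (hlo v).2
    omega
  · have h1 : Fr.filter (fun e => hd e = y ∧ col e < m ∧ cl (col e) = j) ⊆
        univ.filter (fun e => cls2 e = j ∧ hd e = y) := by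
      intro e he
      obtain ⟨a1, a2, a3, a4⟩ := mem_filter.1 he
      refine mem_filter.2 ⟨mem_univ _, ?_, a2⟩
      rw [h23 e (fun h => disjoint_left.1 hUF (hP e h).1 a1) (fun h => by
          obtain ⟨f, hf, rfl⟩ := mem_image.1 h
          exact disjoint_left.1 hUF (hP f hf).2.2.1 a1),
        h13 e (fun h => by have := (mem_filter.1 h).2; omega) (hFr e a1), hcF e a1 a3.le,
        if_pos a3, a4]
    refine le_trans ?_ (card_le_card h1)
    rw [card_fib _ ((range m).filter (fun i => cl i = j)) col (fun e he =>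
      mem_filter.2 ⟨mem_range.2 (mem_filter.1 he).2.2.1, (mem_filter.1 he).2.2.2⟩),
      ← hcl j (mem_univ _), mul_comm, ← smul_eq_mul, ← sum_const]
    refine sum_le_sum fun i hi => ?_
    obtain ⟨a1, a2⟩ := mem_filter.1 hi
    rw [mem_range] at a1
    refine (hlo y).2.trans ((hcol i (by omega) y).2.2.trans (card_le_card fun e he => ?_))
    obtain ⟨b1, b2, b3⟩ := mem_filter.1 he
    exact mem_filter.2 ⟨mem_filter.2 ⟨b1, b2, by omega, by rw [b3, a2]⟩, b3⟩

end Pool.Agent.Lib.MP_1c8ed6_co.Lin
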