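import Pool.Agent.Lib.MP_1c8ed6_co.Lin.Classes
import Pool.Agent.Lib.MP_ae5681_co.Colour4

/-! The edge colouring by the edges of the tree, with linear connectivity. -/

set_option autoImplicit false

namespace Pool.Agent.Lib.MP_1c8ed6_co.Lin

open Finset Pool.Agent.Lib.MP_ae5681_co

/-- The order in which the classes are treated and the classes of their partners. -/
lemma exists_chain {J : Type*} [Fintype J] [DecidableEq J] (a : J → ℕ) (l : J)
    (h : ∑ j ∈ univ.filter (fun j => j ≠ l ∧ a j ≠ 2), a j + 2 ≤ 3 * a l) :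
    ∃ (μ : J → J) (ρ : J → ℕ), Function.Injective ρ ∧ (∀ j, j ≠ l → ρ (μ j) < ρ j) ∧
      ∀ i, ∑ j ∈ univ.filter (fun j => j ≠ l ∧ μ j = i), a j ≤ 3 * a i := by
  set enc : J → ℕ := fun j => Fintype.equivFin J j with henc
  have hinj : Function.Injective enc := Fin.val_injective.comp (Fintype.equivFin J).injective
  have h1 : ∀ j, ∃ i, (i = l ∧ (a j = 2 → ∀ k, k ≠ l → a k = 2 → ¬ enc k < enc j)) ∨
      (a j = 2 ∧ i ≠ l ∧ a i = 2 ∧ enc i < enc j ∧
        ∀ k, k ≠ l → a k = 2 → enc k < enc j → enc k ≤ enc i) := by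
    intro j
    by_cases h2 : a j = 2 ∧ (univ.filter (fun k => k ≠ l ∧ a k = 2 ∧ enc k < enc j)).Nonempty
    · obtain ⟨i, h3, h4⟩ := exists_max_image _ enc h2.2
      obtain ⟨-, a1, a2, a3⟩ := mem_filter.1 h3
      exact ⟨i, Or.inr ⟨h2.1, a1, a2, a3, fun k b1 b2 b3 =>
        h4 k (mem_filter.2 ⟨mem_univ _, b1, b2, b3⟩)⟩⟩
    · exact ⟨l, Or.inl ⟨rfl, fun a1 k b1 b2 b3 =>
        h2 ⟨a1, k, mem_filter.2 ⟨mem_univ _, b1, b2, b3⟩⟩⟩⟩
  choose μ hμ using h1
  have hone : ∀ (S : Finset J), (∀ j ∈ S, a j = 2) → (∀ j ∈ S, ∀ k ∈ S, ¬ enc j < enc k) →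
      ∑ j ∈ S, a j ≤ 2 := by
    intro S h2 h3
    have h4 : S.card ≤ 1 := card_le_one.2 fun j hj k hk =>
      hinj (le_antisymm (not_lt.1 (h3 k hk j hj)) (not_lt.1 (h3 j hj k hk)))
    rw [sum_congr rfl h2, sum_const, smul_eq_mul]
    omega
  refine ⟨μ, fun j => if j = l then 0 else enc j + 1, fun j k hjk => ?_, fun j hj => ?_,
    fun i => ?_⟩
  · dsimp only at hjk
    split_ifs at hjk with a1 a2
    · rw [a1, a2]
    · exact hinj (by omega)
  · dsimp only
    rw [if_neg hj]
    rcases hμ j with ⟨a1, -⟩ | ⟨-, a1, -, a2, -⟩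
    · rw [if_pos a1]; omega
    · rw [if_neg a1]; omega
  · by_cases hi : i = l
    · subst hi
      rw [← sum_filter_add_sum_filter_not _ (fun j => a j = 2)]
      have a1 := hone ((univ.filter (fun j => j ≠ i ∧ μ j = i)).filter (fun j => a j = 2))
        (fun j hj => (mem_filter.1 hj).2) (fun j hj k hk => by
          obtain ⟨b1, b2⟩ := mem_filter.1 hj
          obtain ⟨b3, b4⟩ := mem_filter.1 hk
          rcases hμ k with ⟨-, c1⟩ | ⟨-, c1, -⟩
          · exact c1 b4 j (mem_filter.1 b1).2.1 b2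
          · exact absurd (mem_filter.1 b3).2.2 c1)
      have a2 : ∑ j ∈ (univ.filter (fun j => j ≠ i ∧ μ j = i)).filter (fun j => ¬ a j = 2), a j ≤
          ∑ j ∈ univ.filter (fun j => j ≠ i ∧ a j ≠ 2), a j :=
        sum_le_sum_of_subset fun j hj => mem_filter.2 ⟨mem_univ _,
          (mem_filter.1 (mem_filter.1 hj).1).2.1, (mem_filter.1 hj).2⟩
      omega
    · have a0 : ∀ j ∈ univ.filter (fun j => j ≠ l ∧ μ j = i), a j = 2 ∧ a i = 2 ∧ enc i < enc j ∧
          ∀ k, k ≠ l → a k = 2 → enc k < enc j → enc k ≤ enc i := by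
        intro j hj
        have b1 := (mem_filter.1 hj).2.2
        rcases hμ j with ⟨c1, -⟩ | ⟨c1, -, c2⟩
        · exact absurd (b1.symm.trans c1) hi
        · rw [b1] at c2
          exact ⟨c1, c2⟩
      rcases (univ.filter (fun j => j ≠ l ∧ μ j = i)).eq_empty_or_nonempty with a1 | ⟨j0, a1⟩
      · rw [a1]; simp
      · have a2 := hone _ (fun j hj => (a0 j hj).1) (fun j hj k hk b1 => by
          have b2 := (a0 k hk).2.2.2 j (mem_filter.1 hj).2.1 (a0 j hj).1 b1
          have b3 := (a0 j hj).2.2.1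
          omega)
        have a3 := (a0 j0 a1).2.1
        omega

variable {V ι : Type*} [Fintype V] [DecidableEq V] [Fintype ι] [DecidableEq ι]

/-- An orientation and an edge colouring by the edges of the tree with matching large degrees. -/
theorem exists_colouring [Nonempty V] (s t : ι → V) (m D : ℕ) (hm : 1 ≤ m)
    (par : ℕ → ℕ) (hpar : ∀ c, 1 ≤ c → par c < c)
    (hcut : ∀ A : Finset V, A.Nonempty → A ≠ univ → 1000 * m ≤ cutN univ s t A)
    (hdeg : ∀ v, 84000 * m ^ 2 + 20 * m * (D + m) ≤ cutN univ s t {v})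
    (hdvd : m ∣ Fintype.card ι) :
    ∃ (up dn : ι → V) (col : ι → ℕ) (d : ℕ → V → ℕ), (∀ e, Joins s t e (up e) (dn e)) ∧
      (∀ e, 1 ≤ col e ∧ col e ≤ m) ∧
      (∀ c, 1 ≤ c → c ≤ m → ∀ v,
        (univ.filter (fun e => col e = c ∧ up e = v)).card = d (par c) v ∧
        (univ.filter (fun e => col e = c ∧ dn e = v)).card = d c v) ∧
      ∀ c, c ≤ m → ∀ v, D ≤ d c v := by
  obtain ⟨sd, hsd⟩ := exists_parity par hpar
  obtain ⟨β, hβ⟩ : ∃ β, m + 1 ≤ 2 * ((range (m + 1)).filter (fun j => sd j = β)).card := by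
    have h1 := card_filter_add_card_filter_not (s := range (m + 1)) (fun j => sd j = true)
    rw [card_range] at h1
    simp only [Bool.not_eq_true] at h1
    by_cases h2 : m + 1 ≤ 2 * ((range (m + 1)).filter (fun j => sd j = true)).card
    · exact ⟨true, h2⟩
    · exact ⟨false, by omega⟩
  set TB := (range (m + 1)).filter (fun j => sd j = β) with hTB
  set be : ℕ → ℕ := fun c => if sd c = β then c else par c with hbe
  set C : ℕ → Finset ℕ := fun j => (Icc 1 m).filter (fun c => be c = j) with hC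
  have hbeTB : ∀ c ∈ Icc 1 m, be c ∈ TB := by
    intro c hc
    obtain ⟨h1, h2⟩ := mem_Icc.1 hc
    have h3 := hpar c h1
    have h4 := hsd c h1
    simp only [hbe, hTB, mem_filter, mem_range]
    split_ifs with h5
    · exact ⟨by omega, h5⟩
    · refine ⟨by omega, ?_⟩
      revert h4 h5
      cases sd (par c) <;> cases sd c <;> cases β <;> simp
  have hb : ∀ j, ∃ c, j ∈ TB → c ∈ C j := by
    intro j
    by_cases h3 : 1 ≤ j
    · refine ⟨j, fun hj => ?_⟩
      obtain ⟨h1, h2⟩ := mem_filter.1 hj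
      rw [mem_range] at h1
      exact mem_filter.2 ⟨mem_Icc.2 ⟨h3, by omega⟩, by simp [hbe, h2]⟩
    · refine ⟨1, fun hj => ?_⟩
      obtain ⟨h1, h2⟩ := mem_filter.1 hj
      have h4 : j = 0 := by omega
      subst h4
      have h5 : par 1 = 0 := by have := hpar 1 le_rfl; omega
      have h6 := hsd 1 le_rfl
      rw [h5, h2] at h6
      exact mem_filter.2 ⟨mem_Icc.2 ⟨le_rfl, hm⟩, by simp [hbe, h6.symm, h5]⟩
  choose rep hrep using hb
  have hpos : ∀ j ∈ TB, 1 ≤ (C j).card := fun j hj => card_pos.2 ⟨_, hrep j hj⟩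
  have hsum : ∑ j ∈ TB, (C j).card = m := by
    rw [← card_fib _ _ be hbeTB]; simp
  set κ : ℕ → ℕ := fun j => if (C j).card = 1 then m + 1 else j with hκ
  set N := TB.filter (fun j => (C j).card ≠ 1) with hN
  have hlN : m + 1 ∉ N := fun h => by
    have := mem_range.1 (mem_filter.1 (mem_filter.1 h).1).1
    omega
  set JS := insert (m + 1) N with hJS
  set CC : ℕ → Finset ℕ := fun k => (Icc 1 m).filter (fun c => κ (be c) = k) with hCC
  have hκJ : ∀ c ∈ Icc 1 m, κ (be c) ∈ JS := by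
    intro c hc
    simp only [hκ]
    split_ifs with h
    · exact mem_insert_self _ _
    · exact mem_insert_of_mem (mem_filter.2 ⟨hbeTB c hc, h⟩)
  have hCN : ∀ j ∈ N, CC j = C j := by
    intro j hj
    refine filter_congr fun c _ => ?_
    simp only [hκ]
    constructor
    · intro h
      split_ifs at h
      · exact absurd (h ▸ hj) hlN
      · exact h
    · intro h
      rw [h, if_neg (mem_filter.1 hj).2]
  have hsum' : ∑ k ∈ JS, (CC k).card = m := by
    rw [← card_fib _ _ (fun c => κ (be c)) hκJ]; simp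
  have hload : ∑ j ∈ N.filter (fun j => (CC j).card ≠ 2), (CC j).card + 3 ≤
      3 * (CC (m + 1)).card := by
    have h1 := hsum'
    rw [hJS, sum_insert hlN, sum_congr rfl fun j hj => by rw [hCN j hj]] at h1
    have h2 := hsum
    rw [← sum_filter_add_sum_filter_not TB (fun j => (C j).card = 1),
      sum_congr rfl (fun j hj => (mem_filter.1 hj).2), ← card_eq_sum_ones] at h2
    have h3 := card_filter_add_card_filter_not (s := TB) (fun j => (C j).card = 1)
    have h4 : ∑ j ∈ N, (6 + if (CC j).card ≠ 2 then (CC j).card else 0) ≤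
        ∑ j ∈ N, 3 * (C j).card := by
      refine sum_le_sum fun j hj => ?_
      have a1 := hpos j (mem_filter.1 hj).1
      have a2 := (mem_filter.1 hj).2
      rw [hCN j hj]
      split_ifs <;> omega
    rw [sum_add_distrib, ← sum_filter, ← mul_sum, sum_const, smul_eq_mul] at h4
    change _ + ∑ j ∈ N, (C j).card = m at h2
    change _ + N.card = _ at h3
    omega
  set l : JS := ⟨m + 1, mem_insert_self _ _⟩ with hl
  have hJN : ∀ j : JS, j ≠ l → j.1 ∈ N := fun j hj =>
    (mem_insert.1 j.2).resolve_left fun h => hj (Subtype.ext h)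
  have ha : ∀ j : JS, 1 ≤ (CC j.1).card := by
    intro j
    by_cases hj : j = l
    · rw [hj]
      change 1 ≤ (CC (m + 1)).card
      omega
    · rw [hCN _ (hJN j hj)]
      exact hpos _ (mem_filter.1 (hJN j hj)).1
  obtain ⟨μ, ρ, hρ, hμ, hld⟩ := exists_chain (J := JS) (fun j => (CC j.1).card) l (by
    have h1 : ∑ j ∈ univ.filter (fun j : JS => j ≠ l ∧ (CC j.1).card ≠ 2), (CC j.1).card ≤
        ∑ j ∈ N.filter (fun j => (CC j).card ≠ 2), (CC j).card := by
      rw [← sum_image (s := univ.filter (fun j : JS => j ≠ l ∧ (CC j.1).card ≠ 2))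
        (g := Subtype.val) (f := fun j => (CC j).card) Subtype.val_injective.injOn]
      refine sum_le_sum_of_subset fun j hj => ?_
      obtain ⟨k, hk, rfl⟩ := mem_image.1 hj
      exact mem_filter.2 ⟨hJN k (mem_filter.1 hk).2.1, (mem_filter.1 hk).2.2⟩
    change _ ≤ 3 * (CC (m + 1)).card
    omega)
  obtain ⟨tl, hd, q, cls, hj, hqD, hq, hh1, hh2⟩ := exists_classes (J := JS) s t
    (fun j => (CC j.1).card) (fun j => if j = l then 1 else (CC j.1).card)
    (fun j => by split_ifs; exacts [le_rfl, ha j]) (fun j => by split_ifs <;> simp) ha l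
    (if_pos rfl) μ ρ hρ hμ (fun i => le_trans (le_of_eq (sum_congr rfl fun j hj =>
      if_neg (mem_filter.1 hj).2.1)) (hld i)) m (D + m)
    (by rw [sum_coe_sort JS (fun j => (CC j).card), hsum']) hcut hdeg hdvd
  have h1 := fun j : JS => split_eq (univ.filter (fun e => cls e = j)) tl hd (CC j.1) (ha j)
  choose g hg1 hg2 using h1
  have hcol : ∀ e, g (cls e) e ∈ CC (cls e).1 := fun e =>
    hg1 _ e (mem_filter.2 ⟨mem_univ _, rfl⟩)
  have hset : ∀ (c : ℕ) (hc : c ∈ Icc 1 m) (f : ι → V) (v : V),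
      univ.filter (fun e => g (cls e) e = c ∧ f e = v) =
      (univ.filter (fun e => cls e = ⟨κ (be c), hκJ c hc⟩)).filter
        (fun e => f e = v ∧ g ⟨κ (be c), hκJ c hc⟩ e = c) := by
    intro c hc f v
    ext e
    simp only [mem_filter, mem_univ, true_and]
    constructor
    · rintro ⟨h2, h3⟩
      have h4 := (mem_filter.1 (hcol e)).2
      rw [h2] at h4
      have h5 : cls e = ⟨κ (be c), hκJ c hc⟩ := Subtype.ext h4.symm
      exact ⟨h5, h3, by rw [← h5]; exact h2⟩
    · rintro ⟨h2, h3, h4⟩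
      exact ⟨by rw [h2]; exact h4, h3⟩
  set cnt : ℕ → V → ℕ := fun c v => (univ.filter (fun e => g (cls e) e = c ∧ hd e = v)).card
    with hcnt
  have hT : ∀ c ∈ Icc 1 m, ∀ v,
      (univ.filter (fun e => g (cls e) e = c ∧ tl e = v)).card = q v := by
    intro c hc v
    have h2 := (hg2 ⟨κ (be c), hκJ c hc⟩ c (mem_filter.2 ⟨hc, rfl⟩) v).1.2.2
    rw [← hset c hc, filter_filter, hq] at h2
    exact Nat.eq_of_mul_eq_mul_left (ha ⟨κ (be c), hκJ c hc⟩) (h2 (Dvd.intro _ rfl))
  have hD : ∀ c ∈ Icc 1 m, ∀ v, D ≤ cnt c v := by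
    intro c hc v
    have h2 := (hg2 ⟨κ (be c), hκJ c hc⟩ c (mem_filter.2 ⟨hc, rfl⟩) v).2.2.1
    rw [← hset c hc, filter_filter] at h2
    have h3 := (hh2 v ⟨κ (be c), hκJ c hc⟩).trans h2
    rw [mul_comm] at h3
    have h4 := Nat.le_of_mul_le_mul_left h3 (ha ⟨κ (be c), hκJ c hc⟩)
    have h5 : (CC (κ (be c))).card ≤ m := (card_filter_le _ _).trans (by simp)
    change D + m ≤ cnt c v + (CC (κ (be c))).card at h4
    omega
  have hH : ∀ c ∈ Icc 1 m, ∀ v, cnt c v = cnt (rep (be c)) v := by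
    intro c hc v
    have h2 := hrep _ (hbeTB c hc)
    by_cases h3 : (C (be c)).card = 1
    · rw [card_le_one.1 h3.le _ h2 c (mem_filter.2 ⟨hc, rfl⟩)]
    have key : ∀ c' (hc' : c' ∈ Icc 1 m), be c' = be c → (CC (be c)).card * cnt c' v =
        (univ.filter (fun e => (cls e).1 = be c ∧ hd e = v)).card := by
      intro c' hc' h4
      have h5 : κ (be c') = be c := by rw [h4]; exact if_neg h3
      have h6 := (hg2 ⟨κ (be c'), hκJ c' hc'⟩ c' (mem_filter.2 ⟨hc', rfl⟩) v).2.2.2
      have h7 := hh1 v ⟨κ (be c'), hκJ c' hc'⟩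
      rw [if_neg (fun h => by
        have h8 := mem_range.1 (mem_filter.1 (hbeTB c hc)).1
        have h9 : κ (be c') = m + 1 := congrArg Subtype.val h
        omega)] at h7
      rw [← hset c' hc', filter_filter] at h6
      have h8 := h6 h7
      simp only [Subtype.ext_iff, h5] at h8
      exact h8
    have h4 := key c hc rfl
    rw [← key _ (mem_filter.1 h2).1 (mem_filter.1 h2).2] at h4
    refine Nat.eq_of_mul_eq_mul_left ?_ h4
    exact card_pos.2 ⟨c, mem_filter.2 ⟨hc, if_neg h3⟩⟩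
  refine ⟨fun e => if sd (g (cls e) e) = β then tl e else hd e,
    fun e => if sd (g (cls e) e) = β then hd e else tl e, fun e => g (cls e) e,
    fun c v => if sd c = β then cnt (rep c) v else q v, fun e => ?_,
    fun e => mem_Icc.1 (mem_filter.1 (hcol e)).1, fun c h2 h3 v => ?_, fun c hc v => ?_⟩
  · dsimp only
    split_ifs
    · exact hj e
    · exact (hj e).symm
  · have hc : c ∈ Icc 1 m := mem_Icc.2 ⟨h2, h3⟩
    have h4 := hsd c h2
    by_cases h5 : sd c = β
    · have h6 : ¬ sd (par c) = β := h5 ▸ h4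
      have h7 : be c = c := if_pos h5
      have h8 := hH c hc v
      rw [h7] at h8
      simp only [if_pos h5, if_neg h6]
      rw [← hT c hc v, ← h8]
      constructor <;> congr 1 <;> apply filter_congr <;> intro e _ <;>
        apply and_congr_right <;> intro h8 <;> rw [h8, if_pos h5]
    · have h6 : sd (par c) = β := by
        revert h4 h5
        cases sd (par c) <;> cases sd c <;> cases β <;> simp
      have h7 : be c = par c := if_neg h5
      simp only [if_neg h5, if_pos h6]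
      rw [← hT c hc v, ← h7, ← hH c hc v]
      constructor <;> congr 1 <;> apply filter_congr <;> intro e _ <;>
        apply and_congr_right <;> intro h8 <;> rw [h8, if_neg h5]
  · dsimp only
    split_ifs with h2
    · exact hD _ (mem_filter.1 (hrep c (mem_filter.2 ⟨mem_range.2 (by omega), h2⟩))).1 v
    · have := hqD v
      omega

end Pool.Agent.Lib.MP_1c8ed6_co.Lin
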