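import Pool.Agent.Lib.MP_ae5681_co.Colour3

/-! Connected edge sets on a vertex set: removing and adding vertices of small degree. -/

set_option autoImplicit false

namespace Pool.Agent.Lib.MP_1c8ed6_co.Lin

open Finset Pool.Agent.Lib.MP_ae5681_co

variable {V ι : Type*} [DecidableEq V] [DecidableEq ι]

/-- the edge set `R` lives on `W` and connects it -/
def CO (W : Finset V) (R : Finset ι) (s t : ι → V) : Prop :=
  (∀ e ∈ R, s e ∈ W ∧ t e ∈ W) ∧
    ∀ A ⊆ W, A.Nonempty → A ≠ W → ∃ e ∈ R, ¬ (s e ∈ A ↔ t e ∈ A)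

/-- the number of ends of `e` at `v` -/
def wt (s t : ι → V) (e : ι) (v : V) : ℕ := (if s e = v then 1 else 0) + (if t e = v then 1 else 0)

/-- the degree of `v` in `R` -/
def dg (R : Finset ι) (s t : ι → V) (v : V) : ℕ := ∑ e ∈ R, wt s t e v

/-- no edge of `R` meets `x` -/
def Free (R : Finset ι) (s t : ι → V) (x : V) : Prop := ∀ e ∈ R, s e ≠ x ∧ t e ≠ x

variable {W : Finset V} {R : Finset ι} {s t s' t' : ι → V} {e e1 e2 e3 : ι} {x a b c : V}

omit [DecidableEq ι] in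
lemma wt_joins (h : Joins s t e x a) (v : V) :
    wt s t e v = (if x = v then 1 else 0) + (if a = v then 1 else 0) := by
  unfold wt
  rcases h with ⟨h1, h2⟩ | ⟨h1, h2⟩ <;> rw [h1, h2]
  exact add_comm _ _

omit [DecidableEq V] [DecidableEq ι] in
lemma cross_joins (h : Joins s t e x a) (A : Finset V) :
    (s e ∈ A ↔ t e ∈ A) ↔ (x ∈ A ↔ a ∈ A) := by
  rcases h with ⟨h1, h2⟩ | ⟨h1, h2⟩ <;> rw [h1, h2]
  exact iff_comm

lemma dg_insert (he : e ∉ R) (v : V) : dg (insert e R) s t v = dg R s t v + wt s t e v := by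
  unfold dg
  rw [sum_insert he, add_comm]

lemma dg_erase (he : e ∈ R) (v : V) : dg (R.erase e) s t v + wt s t e v = dg R s t v :=
  sum_erase_add _ _ he

lemma dg_union {R' : Finset ι} (h : Disjoint R R') (v : V) :
    dg (R ∪ R') s t v = dg R s t v + dg R' s t v := sum_union h

omit [DecidableEq ι] in
lemma dg_mono {R' : Finset ι} (h : R ⊆ R') (v : V) : dg R s t v ≤ dg R' s t v :=
  sum_le_sum_of_subset h

omit [DecidableEq ι] in
lemma dg_congr (h : ∀ e ∈ R, s' e = s e ∧ t' e = t e) (v : V) : dg R s' t' v = dg R s t v :=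
  sum_congr rfl fun e he => by unfold wt; rw [(h e he).1, (h e he).2]

omit [DecidableEq ι] in
lemma dg_eq (R : Finset ι) (s t : ι → V) (v : V) :
    dg R s t v = (R.filter (fun e => s e = v)).card + (R.filter (fun e => t e = v)).card := by
  unfold dg wt
  rw [sum_add_distrib, card_filter, card_filter]

omit [DecidableEq ι] in
lemma free_iff : Free R s t x ↔ dg R s t x = 0 := by
  unfold Free dg wt
  rw [sum_eq_zero_iff]
  refine forall₂_congr fun e _ => ?_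
  by_cases h1 : s e = x <;> by_cases h2 : t e = x <;> simp [h1, h2]

lemma exists_of_dg_one (h : dg R s t x = 1) :
    ∃ e ∈ R, ∃ a, Joins s t e x a ∧ a ≠ x ∧ Free (R.erase e) s t x := by
  have h0 : ¬ Free R s t x := by rw [free_iff]; omega
  unfold Free at h0
  push Not at h0
  obtain ⟨e, he, h1⟩ := h0
  have h2 := dg_erase (s := s) (t := t) he x
  have h3 : ∃ a, Joins s t e x a := by
    by_cases h4 : s e = x
    · exact ⟨t e, Or.inl ⟨h4, rfl⟩⟩
    · exact ⟨s e, Or.inr ⟨rfl, h1 h4⟩⟩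
  obtain ⟨a, h3⟩ := h3
  rw [wt_joins h3, if_pos rfl] at h2
  refine ⟨e, he, a, h3, fun h4 => ?_, free_iff.2 (by omega)⟩
  rw [if_pos h4] at h2
  omega

omit [DecidableEq V] [DecidableEq ι] in
lemma CO.congr (h : CO W R s t) (h' : ∀ e ∈ R, s' e = s e ∧ t' e = t e) : CO W R s' t' := by
  refine ⟨fun e he => ?_, fun A h1 h2 h3 => ?_⟩
  · rw [(h' e he).1, (h' e he).2]; exact h.1 e he
  · obtain ⟨e, he, h4⟩ := h.2 A h1 h2 h3
    exact ⟨e, he, by rw [(h' e he).1, (h' e he).2]; exact h4⟩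

omit [DecidableEq V] [DecidableEq ι] in
lemma CO.mem (h : CO W R s t) (he : e ∈ R) (hj : Joins s t e x a) : x ∈ W ∧ a ∈ W := by
  have := h.1 e he
  rcases hj with ⟨h1, h2⟩ | ⟨h1, h2⟩ <;> rw [h1, h2] at this
  · exact this
  · exact this.symm

omit [DecidableEq ι] in
lemma CO.exists_edge (h : CO W R s t) (hW : 2 ≤ W.card) (hx : x ∈ W) :
    ∃ e ∈ R, ∃ a, Joins s t e x a ∧ a ≠ x := by
  obtain ⟨e, he, h1⟩ := h.2 {x} (singleton_subset_iff.2 hx) (singleton_nonempty x) (by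
    rintro rfl; simp at hW)
  simp only [mem_singleton] at h1
  by_cases h2 : s e = x
  · exact ⟨e, he, t e, Or.inl ⟨h2, rfl⟩, fun h3 => h1 (iff_of_true h2 h3)⟩
  · exact ⟨e, he, s e, Or.inr ⟨rfl, by tauto⟩, h2⟩

omit [DecidableEq ι] in
lemma CO.one_le (h : CO W R s t) (hW : 2 ≤ W.card) (hx : x ∈ W) : 1 ≤ dg R s t x := by
  obtain ⟨e, he, a, h1, -⟩ := h.exists_edge hW hx
  have h2 : wt s t e x ≤ dg R s t x :=
    single_le_sum (f := fun e => wt s t e x) (fun _ _ => Nat.zero_le _) he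
  rw [wt_joins h1, if_pos rfl] at h2
  omega

omit [DecidableEq ι] in
lemma CO.dg_out (h : CO W R s t) (hx : x ∉ W) : dg R s t x = 0 :=
  free_iff.1 fun e he => ⟨fun h1 => hx (h1 ▸ (h.1 e he).1), fun h1 => hx (h1 ▸ (h.1 e he).2)⟩

omit [DecidableEq ι] in
/-- a cut of `W` minus `x` seen in `W`, with `x` on the side of `a` -/
lemma CO.lift (h : CO W R s t) (hx : x ∈ W) (a : V) {A : Finset V} (h1 : A ⊆ W.erase x)
    (h2 : A.Nonempty) (h3 : A ≠ W.erase x) :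
    ∃ A' : Finset V, (x ∈ A' ↔ a ∈ A) ∧ (∀ v, v ≠ x → (v ∈ A' ↔ v ∈ A)) ∧
      ∃ e ∈ R, ¬ (s e ∈ A' ↔ t e ∈ A') := by
  have hxA : x ∉ A := fun h4 => by simpa using h1 h4
  have h5 : A ⊆ W := h1.trans (erase_subset _ _)
  by_cases ha : a ∈ A
  · refine ⟨insert x A, by simp [ha], fun v hv => by simp [hv], h.2 _ (insert_subset hx h5)
      (insert_nonempty _ _) fun h4 => h3 ?_⟩
    rw [← h4, erase_insert hxA]
  · exact ⟨A, iff_of_false hxA ha, fun v _ => Iff.rfl, h.2 _ h5 h2 fun h4 => hxA (h4 ▸ hx)⟩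

lemma CO.del_leaf (h : CO W R s t) (he : e ∈ R) (hj : Joins s t e x a) (ha : a ≠ x)
    (hf : Free (R.erase e) s t x) : CO (W.erase x) (R.erase e) s t := by
  refine ⟨fun f hf' => ?_, fun A h1 h2 h3 => ?_⟩
  · have := h.1 f (mem_of_mem_erase hf')
    exact ⟨mem_erase.2 ⟨(hf f hf').1, this.1⟩, mem_erase.2 ⟨(hf f hf').2, this.2⟩⟩
  · obtain ⟨A', a1, a2, f, a3, a4⟩ := h.lift (h.mem he hj).1 a h1 h2 h3
    have a5 : f ∈ R.erase e := mem_erase.2 ⟨by
      rintro rfl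
      exact a4 ((cross_joins hj A').2 (a1.trans (a2 a ha).symm)), a3⟩
    exact ⟨f, a5, by rwa [← a2 _ (hf f a5).1, ← a2 _ (hf f a5).2]⟩

omit [DecidableEq ι] in
/-- a cut of `W` either isolates `x` or is a cut of `W` minus `x` -/
lemma cut_cases (hx : x ∈ W) {A : Finset V} (h1 : A ⊆ W) (h2 : A.Nonempty) (h3 : A ≠ W) :
    (∀ a ∈ W.erase x, ¬ (x ∈ A ↔ a ∈ A)) ∨
      (A.erase x ⊆ W.erase x ∧ (A.erase x).Nonempty ∧ A.erase x ≠ W.erase x) := by
  by_cases h4 : (A.erase x).Nonempty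
  · by_cases h5 : A.erase x = W.erase x
    · refine Or.inl fun a ha h6 => h3 ?_
      have h7 : x ∈ A := h6.2 (mem_of_mem_erase (h5 ▸ ha))
      rw [← insert_erase h7, h5, insert_erase hx]
    · exact Or.inr ⟨erase_subset_erase _ h1, h4, h5⟩
  · refine Or.inl fun a ha h6 => h4 ?_
    obtain ⟨y, hy⟩ := h2
    by_cases h7 : y = x
    · exact ⟨a, mem_erase.2 ⟨(mem_erase.1 ha).1, h6.1 (h7 ▸ hy)⟩⟩
    · exact ⟨y, mem_erase.2 ⟨h7, hy⟩⟩

lemma CO.add_leaf (h : CO (W.erase x) R s t) (hx : x ∈ W) (hj : Joins s t e x a)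
    (ha : a ∈ W.erase x) : CO W (insert e R) s t := by
  refine ⟨fun f hf => ?_, fun A h1 h2 h3 => ?_⟩
  · rcases mem_insert.1 hf with rfl | hf
    · have := mem_of_mem_erase ha
      rcases hj with ⟨h1, h2⟩ | ⟨h1, h2⟩ <;> rw [h1, h2] <;> exact ⟨‹_›, ‹_›⟩
    · exact ⟨mem_of_mem_erase (h.1 f hf).1, mem_of_mem_erase (h.1 f hf).2⟩
  · rcases cut_cases hx h1 h2 h3 with h4 | ⟨h4, h5, h6⟩
    · exact ⟨e, mem_insert_self _ _, fun h7 => h4 a ha ((cross_joins hj A).1 h7)⟩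
    · obtain ⟨f, a1, a2⟩ := h.2 _ h4 h5 h6
      refine ⟨f, mem_insert_of_mem a1, fun h7 => a2 ?_⟩
      simp only [mem_erase, (mem_erase.1 (h.1 f a1).1).1, (mem_erase.1 (h.1 f a1).2).1, ne_eq,
        not_false_eq_true, true_and]
      exact h7

lemma CO.suppress (h : CO W R s t) (he1 : e1 ∈ R) (he2 : e2 ∈ R) (hj1 : Joins s t e1 x a)
    (hj2 : Joins s t e2 x b) (ha : a ≠ x) (hb : b ≠ x) (hne : e1 ≠ e2)
    (hf : Free ((R.erase e2).erase e1) s t x) (hj : Joins s' t' e1 a b)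
    (hs : ∀ f, f ≠ e1 → s' f = s f ∧ t' f = t f) : CO (W.erase x) (R.erase e2) s' t' := by
  have ha' : a ∈ W.erase x := mem_erase.2 ⟨ha, (h.mem he1 hj1).2⟩
  have hb' : b ∈ W.erase x := mem_erase.2 ⟨hb, (h.mem he2 hj2).2⟩
  refine ⟨fun f hf' => ?_, fun A h1 h2 h3 => ?_⟩
  · by_cases h1 : f = e1
    · subst h1
      rcases hj with ⟨h1, h2⟩ | ⟨h1, h2⟩ <;> rw [h1, h2] <;> exact ⟨‹_›, ‹_›⟩
    · have h2 := h.1 f (mem_of_mem_erase hf')
      have h3 := hf f (mem_erase.2 ⟨h1, hf'⟩)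
      rw [(hs f h1).1, (hs f h1).2]
      exact ⟨mem_erase.2 ⟨h3.1, h2.1⟩, mem_erase.2 ⟨h3.2, h2.2⟩⟩
  · by_cases hab : (a ∈ A ↔ b ∈ A)
    · obtain ⟨A', a1, a2, f, a3, a4⟩ := h.lift (h.mem he1 hj1).1 a h1 h2 h3
      have a5 : f ≠ e1 := by
        rintro rfl
        exact a4 ((cross_joins hj1 A').2 (a1.trans (a2 a ha).symm))
      have a6 : f ∈ R.erase e2 := mem_erase.2 ⟨by
        rintro rfl
        exact a4 ((cross_joins hj2 A').2 ((a1.trans hab).trans (a2 b hb).symm)), a3⟩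
      have a7 := hf f (mem_erase.2 ⟨a5, a6⟩)
      exact ⟨f, a6, by rwa [(hs f a5).1, (hs f a5).2, ← a2 _ a7.1, ← a2 _ a7.2]⟩
    · exact ⟨e1, mem_erase.2 ⟨hne, he1⟩, fun h4 => hab ((cross_joins hj A).1 h4)⟩

lemma CO.subdivide (h : CO (W.erase x) R s' t') (hx : x ∈ W) (he1 : e1 ∈ R)
    (hj1 : Joins s t e1 x a) (hj2 : Joins s t e2 x b) (hj : Joins s' t' e1 a b)
    (hs : ∀ f, f ≠ e1 → s' f = s f ∧ t' f = t f) : CO W (insert e2 R) s t := by
  obtain ⟨ha, hb⟩ := h.mem he1 hj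
  have ha' := mem_of_mem_erase ha
  have hb' := mem_of_mem_erase hb
  refine ⟨fun f hf => ?_, fun A h1 h2 h3 => ?_⟩
  · rcases mem_insert.1 hf with rfl | hf
    · rcases hj2 with ⟨h1, h2⟩ | ⟨h1, h2⟩ <;> rw [h1, h2] <;> exact ⟨‹_›, ‹_›⟩
    by_cases h1 : f = e1
    · subst h1
      rcases hj1 with ⟨h1, h2⟩ | ⟨h1, h2⟩ <;> rw [h1, h2] <;> exact ⟨‹_›, ‹_›⟩
    · rw [← (hs f h1).1, ← (hs f h1).2]
      exact ⟨mem_of_mem_erase (h.1 f hf).1, mem_of_mem_erase (h.1 f hf).2⟩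
  · rcases cut_cases hx h1 h2 h3 with h4 | ⟨h4, h5, h6⟩
    · exact ⟨e2, mem_insert_self _ _, fun h7 => h4 b hb ((cross_joins hj2 A).1 h7)⟩
    · obtain ⟨f, a1, a2⟩ := h.2 _ h4 h5 h6
      have a3 : ¬ (s' f ∈ A ↔ t' f ∈ A) := fun h7 => a2 (by
        simp only [mem_erase, (mem_erase.1 (h.1 f a1).1).1, (mem_erase.1 (h.1 f a1).2).1, ne_eq,
          not_false_eq_true, true_and]
        exact h7)
      by_cases a4 : f = e1
      · subst a4
        rw [cross_joins hj] at a3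
        by_cases a5 : (x ∈ A ↔ a ∈ A)
        · exact ⟨e2, mem_insert_self _ _, fun h7 => a3 (a5.symm.trans ((cross_joins hj2 A).1 h7))⟩
        · exact ⟨f, mem_insert_of_mem a1, fun h7 => a5 ((cross_joins hj1 A).1 h7)⟩
      · exact ⟨f, mem_insert_of_mem a1, by rwa [← (hs f a4).1, ← (hs f a4).2]⟩

/-- one of the two edges at `x` can be replaced by a third one -/
lemma CO.exchange (h : CO W R s t) (he1 : e1 ∈ R) (he2 : e2 ∈ R) (hj1 : Joins s t e1 x a)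
    (hj2 : Joins s t e2 x b) (hne : e1 ≠ e2) (hf : Free ((R.erase e2).erase e1) s t x)
    (hj3 : Joins s t e3 x c) (hc : c ∈ W.erase x) :
    CO W (insert e3 (R.erase e1)) s t ∨ CO W (insert e3 (R.erase e2)) s t := by
  have hx := (h.mem he1 hj1).1
  have hc' := mem_of_mem_erase hc
  have key : ∀ {e1 e2 : ι} {a b : V}, e2 ∈ R → Joins s t e1 x a → Joins s t e2 x b → e1 ≠ e2 →
      ¬ CO W (insert e3 (R.erase e1)) s t → ∃ A ⊆ W, x ∈ A ∧ c ∈ A ∧ a ∉ A ∧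
        ∀ f ∈ R.erase e1, (s f ∈ A ↔ t f ∈ A) := by
    intro e1 e2 a b _ hj1 _ _ hn
    have h1 : ∃ A ⊆ W, A.Nonempty ∧ A ≠ W ∧
        ∀ f ∈ insert e3 (R.erase e1), (s f ∈ A ↔ t f ∈ A) := by
      by_contra h2
      refine hn ⟨fun f hf => ?_, fun A a1 a2 a3 => ?_⟩
      · rcases mem_insert.1 hf with rfl | hf
        · rcases hj3 with ⟨h1, h2⟩ | ⟨h1, h2⟩ <;> rw [h1, h2] <;> exact ⟨‹_›, ‹_›⟩
        · exact h.1 f (mem_of_mem_erase hf)
      · by_contra h3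
        exact h2 ⟨A, a1, a2, a3, fun f hf => by
          by_contra h4
          exact h3 ⟨f, hf, h4⟩⟩
    obtain ⟨A, a1, a2, a3, a4⟩ := h1
    obtain ⟨f, a5, a6⟩ := h.2 A a1 a2 a3
    have a7 : f = e1 := by
      by_contra a7
      exact a6 (a4 f (mem_insert_of_mem (mem_erase.2 ⟨a7, a5⟩)))
    subst a7
    rw [cross_joins hj1] at a6
    have a8 := (cross_joins hj3 A).1 (a4 e3 (mem_insert_self _ _))
    by_cases a9 : x ∈ A
    · exact ⟨A, a1, a9, a8.1 a9, fun h => a6 (iff_of_true a9 h),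
        fun g hg => a4 g (mem_insert_of_mem hg)⟩
    · refine ⟨W \ A, sdiff_subset, mem_sdiff.2 ⟨hx, a9⟩, mem_sdiff.2 ⟨hc', fun h => a9 (a8.2 h)⟩,
        fun h => a6 (iff_of_false a9 (mem_sdiff.1 h).2), fun g hg => ?_⟩
      have b1 := h.1 g (mem_of_mem_erase hg)
      have b2 := a4 g (mem_insert_of_mem hg)
      simp only [mem_sdiff, b1.1, b1.2, true_and]
      exact not_congr b2
  by_contra hn
  rw [not_or] at hn
  obtain ⟨A, a1, -, a3, a4, a5⟩ := key he2 hj1 hj2 hne hn.1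
  obtain ⟨B, -, -, b3, b4, b5⟩ := key he1 hj2 hj1 hne.symm hn.2
  obtain ⟨f, c1, c2⟩ := h.2 ((A ∩ B).erase x)
    ((erase_subset _ _).trans (inter_subset_left.trans a1))
    ⟨c, mem_erase.2 ⟨(mem_erase.1 hc).1, mem_inter.2 ⟨a3, b3⟩⟩⟩
    (fun h1 => notMem_erase x (A ∩ B) (h1.symm ▸ hx))
  by_cases d1 : f = e1
  · subst d1
    exact c2 ((cross_joins hj1 _).2 (by simp [a4]))
  by_cases d2 : f = e2
  · subst d2
    exact c2 ((cross_joins hj2 _).2 (by simp [b4]))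
  have d3 := hf f (mem_erase.2 ⟨d1, mem_erase.2 ⟨d2, c1⟩⟩)
  have d4 := a5 f (mem_erase.2 ⟨d1, c1⟩)
  have d5 := b5 f (mem_erase.2 ⟨d2, c1⟩)
  apply c2
  simp only [mem_erase, mem_inter, ne_eq, d3.1, d3.2, not_false_eq_true, true_and]
  exact and_congr d4 d5

/-- a connected edge set contains a connected edge set with fewer edges than vertices -/
lemma CO.trim (h : CO W R s t) (hW : W.Nonempty) :
    ∃ S ⊆ R, CO W S s t ∧ S.card + 1 ≤ W.card := by
  have key : ∀ n, n + 1 ≤ W.card → ∃ A ⊆ W, ∃ S ⊆ R, A.card = n + 1 ∧ CO A S s t ∧ S.card ≤ n := by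
    intro n
    induction n with
    | zero =>
      intro _
      obtain ⟨v, hv⟩ := hW
      refine ⟨{v}, singleton_subset_iff.2 hv, ∅, empty_subset _, by simp,
        ⟨by simp, fun A h1 h2 h3 => ?_⟩, by simp⟩
      rcases subset_singleton_iff.1 h1 with h4 | h4
      · exact absurd h4 h2.ne_empty
      · exact absurd h4 h3
    | succ n ih =>
      intro hn
      obtain ⟨A, a1, S, a2, a3, a4, a5⟩ := ih (by omega)
      obtain ⟨e, he, a6⟩ := h.2 A a1 (card_pos.1 (by omega)) (by rintro rfl; omega)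
      obtain ⟨x, a, b1, b2, b3⟩ : ∃ x a, Joins s t e x a ∧ x ∉ A ∧ a ∈ A := by
        by_cases b0 : s e ∈ A
        · exact ⟨t e, s e, Or.inr ⟨rfl, rfl⟩, fun b => a6 (iff_of_true b0 b), b0⟩
        · exact ⟨s e, t e, Or.inl ⟨rfl, rfl⟩, b0, by tauto⟩
      refine ⟨insert x A, insert_subset (h.mem he b1).1 a1, insert e S, insert_subset he a2,
        by rw [card_insert_of_notMem b2, a3], CO.add_leaf (x := x) (a := a) ?_
          (mem_insert_self _ _) b1 ?_, (card_insert_le _ _).trans (by omega)⟩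
      · rwa [erase_insert b2]
      · rwa [erase_insert b2]
  have h1 := card_pos.2 hW
  obtain ⟨A, a1, S, a2, a3, a4, a5⟩ := key (W.card - 1) (by omega)
  rw [eq_of_subset_of_card_le a1 (by omega)] at a4
  exact ⟨S, a2, a4, by omega⟩

end Pool.Agent.Lib.MP_1c8ed6_co.Lin
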