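import Pool.Agent.Results.MP_1c8ed6_co.Linear

set_option autoImplicit false

namespace Pool.Agent.Lib.MP_1c8ed6_co.Lin

/-- The threshold without degree condition, as a consequence of the handed-in theorem. -/
theorem cor_poly
    {V : Type} [Fintype V] [DecidableEq V] (G : SimpleGraph V) [DecidableRel G.Adj]
    {W : Type} [Fintype W] [DecidableEq W] (T : SimpleGraph W) [DecidableRel T.Adj]
    (hT : T.IsTree) (k : ℕ) (hk : 125000 * T.edgeFinset.card ^ 7 ≤ k)
    (F : Fin k → SimpleGraph V) (hF : ∀ i, F i ≤ G ∧ (F i).IsTree)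
    (hd : Pairwise (fun i j => Disjoint (F i) (F j)))
    (hdiv : T.edgeFinset.card ∣ G.edgeFinset.card) :
    ∃ (n : ℕ) (H : Fin n → G.Subgraph),
      (∀ i, Nonempty (T ≃g (H i).coe)) ∧
      Pairwise (fun i j => Disjoint (H i).edgeSet (H j).edgeSet) ∧
      (∀ e ∈ G.edgeSet, ∃ i, e ∈ (H i).edgeSet) := by
  rcases subsingleton_or_nontrivial V with hV | hV
  · refine ⟨0, Fin.elim0, fun i => i.elim0, fun i => i.elim0, fun e he => ?_⟩
    induction e using Sym2.ind with
    | _ a b => exact absurd (Subsingleton.elim a b) (G.ne_of_adj he)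
  have hle : 1000 * T.edgeFinset.card ≤ k := by
    refine le_trans ?_ hk
    rcases Nat.eq_zero_or_pos T.edgeFinset.card with h0 | h0
    · simp [h0]
    · have := Nat.le_self_pow (n := 7) (by norm_num) T.edgeFinset.card
      omega
  refine Pool.Agent.Results.MP_1c8ed6_co.Linear.result G T hT
    ⟨fun i => F (Fin.castLE hle i), fun i => hF _, fun i j hij => hd ?_⟩ (fun v => ?_) hdiv
  · exact fun h => hij (Fin.castLE_injective hle h)
  · have hw : ∀ i, ∃ w, (F i).Adj v w := fun i =>
      (hF i).2.connected.preconnected.exists_adj_of_nontrivial v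
    choose w hw using hw
    have hinj : Function.Injective w := by
      intro i j hij
      by_contra hne
      have h1 := SimpleGraph.disjoint_edgeSet.2 (hd hne)
      exact Set.disjoint_left.1 h1 (show s(v, w i) ∈ (F i).edgeSet from hw i)
        (by rw [hij]; exact hw j)
    refine le_trans hk ?_
    have h2 := Finset.card_le_card_of_injOn (s := Finset.univ) (t := G.neighborFinset v) w
      (fun i _ => by simpa using (hF i).1 (hw i)) hinj.injOn
    simpa using h2

end Pool.Agent.Lib.MP_1c8ed6_co.Lin
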