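import Pool.Agent.Lib.MP_1c8ed6_co.Lin.Balance

/-! Discharging, and balanced families of spanning trees. -/

set_option autoImplicit false

namespace Pool.Agent.Lib.MP_1c8ed6_co.Lin

open Finset Pool.Agent.Lib.MP_ae5681_co

variable {V ι : Type*} [DecidableEq V] [DecidableEq ι]

lemma balance_step {W : Finset V} {T1 T2 : Finset ι} {s t : ι → V} (ih : IH V ι W.card)
    (h : DT W T1 T2 s t) : Goal W (T1 ∪ T2) s t := by
  by_cases hW : ¬ 2 ≤ W.card
  · have a1 := h.n1
    have a2 := h.n2
    have a3 : T1 = ∅ := card_eq_zero.1 (by omega)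
    have a4 : T2 = ∅ := card_eq_zero.1 (by omega)
    exact ⟨T1, T2, h, rfl, by simp [a3, a4]⟩
  rw [not_not] at hW
  by_contra hn
  set U := T1 ∪ T2 with hU
  set d : V → ℕ := dg U s t with hd
  set D : Finset (ι × Bool) := U ×ˢ univ with hD
  set p : ι × Bool → V := fun z => if z.2 then s z.1 else t z.1 with hp
  set q : ι × Bool → V := fun z => if z.2 then t z.1 else s z.1 with hq
  set g : ι × Bool → ℕ := fun z =>
    if 9 ≤ d (p z) then (if d (q z) = 2 then 2 else if d (q z) = 3 then 1 else 0) else 0 with hg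
  have hj : ∀ z, Joins s t z.1 (q z) (p z) := by
    rintro ⟨e, b⟩
    cases b
    · exact Or.inl ⟨rfl, rfl⟩
    · exact Or.inr ⟨rfl, rfl⟩
  have hj' : ∀ e ∈ U, ∀ x a, Joins s t e x a → ∃ z ∈ D, z.1 = e ∧ q z = x ∧ p z = a := by
    intro e he x a h1
    rcases h1 with ⟨h1, h2⟩ | ⟨h1, h2⟩
    · exact ⟨(e, false), by simp [hD, he], rfl, h1, h2⟩
    · exact ⟨(e, true), by simp [hD, he], rfl, h2, h1⟩
  have hmem : ∀ z ∈ D, q z ∈ W ∧ p z ∈ W := by
    intro z hz
    rcases mem_union.1 (mem_product.1 hz).1 with h1 | h1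
    · exact h.c1.mem h1 (hj z)
    · exact h.c2.mem h1 (hj z)
  have hdeg : ∀ v, (D.filter (fun z => p z = v)).card = d v := by
    intro v
    rw [card_filter, hD, sum_product]
    refine sum_congr rfl fun e _ => ?_
    rw [Fintype.sum_bool]
    rfl
  have s1 : ∑ v ∈ W, ∑ z ∈ D.filter (fun z => p z = v), g z = ∑ z ∈ D, g z :=
    sum_fiberwise_of_maps_to (fun z hz => (hmem z hz).2) g
  have s2 : ∑ v ∈ W, ∑ z ∈ D.filter (fun z => q z = v), g z = ∑ z ∈ D, g z :=
    sum_fiberwise_of_maps_to (fun z hz => (hmem z hz).1) g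
  have s3 : ∑ v ∈ W, d v = 2 * (T1.card + T2.card) := by
    rw [← sum_congr rfl (fun v _ => hdeg v), ← card_fib D W p (fun z hz => (hmem z hz).2), hD,
      card_product, hU, card_union_of_disjoint h.dis]
    simp [mul_comm]
  have two : ∀ v n, (∃ e1 ∈ U, ∃ e2 ∈ U, ∃ a b, Joins s t e1 v a ∧ Joins s t e2 v b ∧
      (e1 = e2 → a ≠ b) ∧ 9 ≤ d a ∧ 9 ≤ d b) →
      (if d v = 2 then 2 else if d v = 3 then 1 else 0) = n →
      2 * n ≤ ∑ z ∈ D.filter (fun z => q z = v), g z := by
    rintro v n ⟨e1, m1, e2, m2, a, b, h1, h2, h3, h4, h5⟩ h6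
    obtain ⟨z1, a1, a2, a3, a4⟩ := hj' e1 m1 v a h1
    obtain ⟨z2, b1, b2, b3, b4⟩ := hj' e2 m2 v b h2
    have c1 : z1 ≠ z2 := by
      rintro rfl
      exact h3 (a2.symm.trans b2) (a4.symm.trans b4)
    have c2 : ({z1, z2} : Finset (ι × Bool)) ⊆ D.filter (fun z => q z = v) := by
      intro z hz
      rcases mem_insert.1 hz with rfl | hz
      · exact mem_filter.2 ⟨a1, a3⟩
      · rw [mem_singleton.1 hz]; exact mem_filter.2 ⟨b1, b3⟩
    refine le_trans (le_of_eq ?_) (sum_le_sum_of_subset c2)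
    rw [sum_pair c1]
    simp only [hg, a3, a4, b3, b4, if_pos h4, if_pos h5, h6]
    omega
  have loc : ∀ v ∈ W, 8 + ∑ z ∈ D.filter (fun z => p z = v), g z ≤
      2 * d v + ∑ z ∈ D.filter (fun z => q z = v), g z := by
    intro v hv
    by_cases hb : 9 ≤ d v
    · have a1 : ((D.filter (fun z => p z = v)).filter (fun z => d (q z) = 2)).card ≤ 1 := by
        refine card_le_one.2 fun z hz z' hz' => ?_
        obtain ⟨b1, b2⟩ := mem_filter.1 hz
        obtain ⟨b3, b4⟩ := mem_filter.1 b1
        obtain ⟨c1, c2⟩ := mem_filter.1 hz'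
        obtain ⟨c3, c4⟩ := mem_filter.1 c1
        have j1 := hj z
        have j2 := hj z'
        rw [b4] at j1
        rw [c4] at j2
        obtain ⟨e1, -, e2, -, a, b, -, -, k3, k4, k5, k6⟩ :=
          two_big ih h hW (hmem z' c3).1 c2 hn
        have hxy : q z = q z' := by
          by_contra hxy
          refine hn (red2b ih h (mem_product.1 b3).1 (mem_product.1 c3).1 j1 j2 hxy b2 c2 hW
            fun f hf h1 => ?_)
          change 9 ≤ d a at k4
          change 9 ≤ d b at k5
          rcases k6 f hf _ h1 with ⟨-, h2⟩ | ⟨-, h2⟩ <;> rw [h2] at b2 <;> omega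
        rw [hxy] at j1
        have he : z.1 = z'.1 := by
          rcases k6 _ (mem_product.1 b3).1 _ j1 with ⟨h1, h2⟩ | ⟨h1, h2⟩ <;>
            rcases k6 _ (mem_product.1 c3).1 _ j2 with ⟨h3, h4⟩ | ⟨h3, h4⟩
          · rw [h1, h3]
          · exact absurd (h2.symm.trans h4) k3
          · exact absurd (h4.symm.trans h2) k3
          · rw [h1, h3]
        have hne : q z ≠ v := by rintro rfl; omega
        obtain ⟨e, b⟩ := z
        obtain ⟨e', b'⟩ := z'
        obtain rfl : e = e' := he
        cases b <;> cases b'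
        · rfl
        · exact absurd c4 hne
        · exact absurd c4 hne
        · rfl
      have a2 : ∑ z ∈ D.filter (fun z => p z = v), g z ≤
          ∑ z ∈ D.filter (fun z => p z = v), (1 + if d (q z) = 2 then 1 else 0) := by
        refine sum_le_sum fun z _ => ?_
        simp only [hg]
        split_ifs <;> omega
      rw [sum_add_distrib, ← card_filter, ← card_eq_sum_ones, hdeg] at a2
      omega
    · have a1 : ∑ z ∈ D.filter (fun z => p z = v), g z = 0 := by
        refine sum_eq_zero fun z hz => ?_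
        simp only [hg, (mem_filter.1 hz).2, if_neg hb]
      have a2 : 2 ≤ d v := by
        have b1 := h.c1.one_le hW hv
        have b2 := h.c2.one_le hW hv
        have b3 : d v = _ := dg_union h.dis v
        omega
      by_cases a3 : d v = 2
      · obtain ⟨e1, m1, e2, m2, a, b, k1, k2, k3, k4, k5, -⟩ := two_big ih h hW hv a3 hn
        have := two v 2 ⟨e1, m1, e2, m2, a, b, k1, k2, fun _ => k3, k4, k5⟩ (by simp [a3])
        omega
      by_cases a4 : d v = 3
      · obtain ⟨e1, m1, e2, m2, a, b, k1, k2, k3, k4, k5⟩ := three_big ih h hW hv a4 hn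
        have := two v 1 ⟨e1, m1, e2, m2, a, b, k1, k2, fun h => absurd h k3, k4, k5⟩ (by simp [a4])
        omega
      omega
  have s4 := sum_le_sum loc
  rw [sum_add_distrib, sum_add_distrib, s1, s2, ← mul_sum, s3, sum_const, smul_eq_mul] at s4
  have := h.n1
  have := h.n2
  omega

theorem balance (n : ℕ) : IH V ι n := by
  induction n with
  | zero => intro W _ _ _ _ h; omega
  | succ n ih =>
    intro W s t T1 T2 h1 h2
    exact balance_step (fun W' s' t' R1 R2 h3 h4 => ih W' s' t' R1 R2 (by omega) h4) h2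

/-- a family of `2 ^ r` disjoint trees can be re-chosen with almost equal degrees -/
theorem balance_family {W : Finset V} {s t : ι → V} (r : ℕ) :
    ∀ (T : (Fin r → Bool) → Finset ι) (U : Finset ι), (∀ i, T i ⊆ U) →
      (∀ i, CO W (T i) s t ∧ (T i).card + 1 ≤ W.card) → (∀ i j, i ≠ j → Disjoint (T i) (T j)) →
      ∃ R : (Fin r → Bool) → Finset ι, (∀ i, R i ⊆ U ∧ CO W (R i) s t) ∧
        (∀ i j, i ≠ j → Disjoint (R i) (R j)) ∧
        ∀ i v, 2 ^ r * dg (R i) s t v ≤ dg U s t v + 2 ^ r * (3 * r) := by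
  induction r with
  | zero =>
    intro T U h1 h2 h3
    refine ⟨T, fun i => ⟨h1 i, (h2 i).1⟩, h3, fun i v => ?_⟩
    have := dg_mono (s := s) (t := t) (h1 i) v
    omega
  | succ r ih =>
    intro T U h1 h2 h3
    have hne : ∀ (i j : Fin r → Bool) (b c : Bool), (i ≠ j ∨ b ≠ c) →
        (Fin.cons b i : Fin (r + 1) → Bool) ≠ Fin.cons c j := by
      intro i j b c h4 h5
      rw [Fin.cons_inj] at h5
      tauto
    have h4 := fun i : Fin r → Bool => balance (W.card + 1) W s t (T (Fin.cons false i))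
      (T (Fin.cons true i)) (Nat.lt_succ_self _)
      ⟨(h2 _).1, (h2 _).1, h3 _ _ (hne _ _ _ _ (Or.inr (by simp))), (h2 _).2, (h2 _).2⟩
    choose S1 S2 k1 k2 k3 using h4
    set S : Bool → (Fin r → Bool) → Finset ι := fun b i => if b then S1 i else S2 i with hS
    have hsub : ∀ b i, S b i ⊆ T (Fin.cons false i) ∪ T (Fin.cons true i) := by
      intro b i
      rw [← k2 i]
      cases b
      · exact subset_union_right
      · exact subset_union_left
    have hdis : ∀ b c i j, i ≠ j → Disjoint (S b i) (S c j) := by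
      intro b c i j hij
      refine Disjoint.mono (hsub b i) (hsub c j) ?_
      simp only [disjoint_union_left, disjoint_union_right]
      exact ⟨⟨h3 _ _ (hne _ _ _ _ (Or.inl hij)), h3 _ _ (hne _ _ _ _ (Or.inl hij))⟩,
        h3 _ _ (hne _ _ _ _ (Or.inl hij)), h3 _ _ (hne _ _ _ _ (Or.inl hij))⟩
    have hU : ∀ b, univ.biUnion (S b) ⊆ U := fun b => biUnion_subset.2 fun i _ =>
      (hsub b i).trans (union_subset (h1 _) (h1 _))
    have hUd : Disjoint (univ.biUnion (S true)) (univ.biUnion (S false)) := by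
      rw [disjoint_biUnion_left]
      intro i _
      rw [disjoint_biUnion_right]
      intro j _
      by_cases hij : i = j
      · subst hij; exact (k1 i).dis
      · exact hdis _ _ _ _ hij
    have hsum : ∀ b v, dg (univ.biUnion (S b)) s t v = ∑ i, dg (S b i) s t v := fun b v =>
      sum_biUnion fun i _ j _ hij => hdis b b i j hij
    have hhalf : ∀ b v, 2 * dg (univ.biUnion (S b)) s t v ≤ dg U s t v + 2 ^ r * 6 := by
      intro b v
      have a1 := dg_mono (s := s) (t := t) (union_subset (hU true) (hU false)) v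
      rw [dg_union hUd] at a1
      have a2 : ∑ i, dg (S true i) s t v ≤ ∑ i, (dg (S false i) s t v + 6) :=
        sum_le_sum fun i _ => (k3 i v).1
      have a3 : ∑ i, dg (S false i) s t v ≤ ∑ i, (dg (S true i) s t v + 6) :=
        sum_le_sum fun i _ => (k3 i v).2
      rw [sum_add_distrib, ← hsum, ← hsum, sum_const, card_univ, smul_eq_mul] at a2 a3
      simp only [Fintype.card_fun, Fintype.card_bool, Fintype.card_fin] at a2 a3
      cases b <;> omega
    have h5 := fun b => ih (S b) (univ.biUnion (S b))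
      (fun i => subset_biUnion_of_mem (S b) (mem_univ i))
      (fun i => by
        cases b
        · exact ⟨(k1 i).c2, (k1 i).n2⟩
        · exact ⟨(k1 i).c1, (k1 i).n1⟩) (hdis b b)
    choose R l1 l2 l3 using h5
    refine ⟨fun i => R (i 0) (Fin.tail i), fun i => ⟨(l1 _ _).1.trans (hU _), (l1 _ _).2⟩,
      fun i j hij => ?_, fun i v => ?_⟩
    · by_cases h6 : i 0 = j 0
      · dsimp only
        rw [h6]
        refine l2 _ _ _ fun h7 => hij ?_
        rw [← Fin.cons_self_tail i, ← Fin.cons_self_tail j, h6, h7]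
      · refine Disjoint.mono (l1 _ _).1 (l1 _ _).1 ?_
        revert h6
        cases i 0 <;> cases j 0 <;> simp [hUd, hUd.symm]
    · have a1 := l3 (i 0) (Fin.tail i) v
      have a2 := hhalf (i 0) v
      rw [pow_succ]
      nlinarith

/-- a highly connected edge set contains many disjoint connected sets of small degrees -/
theorem balanced_pack [Fintype V] [Nonempty V] {X : Type*} [Fintype X] (F : Finset ι)
    (s t : ι → V) (r : ℕ) (hX : Fintype.card X ≤ 2 ^ r)
    (hcut : ∀ A : Finset V, A.Nonempty → A ≠ univ → 2 * 2 ^ r ≤ cutN F s t A) :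
    ∃ R : X → Finset ι, (∀ i, R i ⊆ F ∧ Conn (R i) s t) ∧ (∀ i j, i ≠ j → Disjoint (R i) (R j)) ∧
      ∀ i v, 2 ^ r * dg (R i) s t v ≤ dg F s t v + 2 ^ r * (3 * r) := by
  obtain ⟨T, h1, h2⟩ := pack (J := Fin r → Bool) F s t id 1 one_pos
    (fun g => card_le_one.2 fun a ha b hb => (mem_filter.1 ha).2.trans (mem_filter.1 hb).2.symm)
    (fun A a1 a2 => by simpa using hcut A a1 a2)
  have h3 := fun i => CO.trim (W := univ) (R := T i) (s := s) (t := t)
    ⟨fun _ _ => ⟨mem_univ _, mem_univ _⟩, fun A _ a1 a2 => (h1 i).2 A a1 a2⟩ univ_nonempty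
  choose S k1 k2 k3 using h3
  obtain ⟨R, l1, l2, l3⟩ := balance_family r S F (fun i => (k1 i).trans (h1 i).1)
    (fun i => ⟨k2 i, k3 i⟩) (fun i j hij => disjoint_left.2 fun e a1 a2 =>
      hij (h2 i j e e (k1 i a1) (k1 j a2) rfl).2)
  obtain ⟨f⟩ := Function.Embedding.nonempty_of_card_le (α := X) (β := Fin r → Bool) (by simpa using hX)
  exact ⟨fun i => R (f i), fun i => ⟨(l1 _).1, fun A a1 a2 => (l1 _).2.2 A (subset_univ _) a1 a2⟩,
    fun i j hij => l2 _ _ fun h => hij (f.injective h), fun i v => l3 _ v⟩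

end Pool.Agent.Lib.MP_1c8ed6_co.Lin
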