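import Pool.Agent.Lib.MP_ae5681_co.Colour3

/-! Equitable splitting of arc sets, and fixing the residues class by class. -/

set_option autoImplicit false

namespace Pool.Agent.Lib.MP_1c8ed6_co.Lin

open Finset Pool.Agent.Lib.MP_ae5681_co

lemma pad_spec {k : ℕ} (hk : 0 < k) (d : ℕ) : ∃ p, p ≤ k ∧ k ∣ d + p ∧ (k ∣ d → p = 0) := by
  by_cases h : k ∣ d
  · exact ⟨0, Nat.zero_le _, h, fun _ => rfl⟩
  · refine ⟨k - d % k, Nat.sub_le _ _, ⟨d / k + 1, ?_⟩, fun h' => absurd h' h⟩
    have h1 := Nat.mod_lt d hk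
    have h2 := Nat.div_add_mod d k
    rw [mul_add]
    omega

/-- Split an arc set almost equally at both ends. -/
lemma split_eq {ι β κ : Type*} [DecidableEq ι] [DecidableEq β] [Fintype β] [DecidableEq κ]
    [Inhabited κ] (S : Finset ι) (f h : ι → β) (C : Finset κ) (hC : 0 < C.card) :
    ∃ g : ι → κ, (∀ e ∈ S, g e ∈ C) ∧ ∀ c ∈ C, ∀ v,
      (C.card * (S.filter (fun e => f e = v ∧ g e = c)).card ≤
          (S.filter (fun e => f e = v)).card + C.card ∧
        (S.filter (fun e => f e = v)).card ≤
          C.card * ((S.filter (fun e => f e = v ∧ g e = c)).card + C.card) ∧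
        (C.card ∣ (S.filter (fun e => f e = v)).card →
          C.card * (S.filter (fun e => f e = v ∧ g e = c)).card =
            (S.filter (fun e => f e = v)).card)) ∧
      C.card * (S.filter (fun e => h e = v ∧ g e = c)).card ≤
          (S.filter (fun e => h e = v)).card + C.card ∧
        (S.filter (fun e => h e = v)).card ≤
          C.card * ((S.filter (fun e => h e = v ∧ g e = c)).card + C.card) ∧
        (C.card ∣ (S.filter (fun e => h e = v)).card →
          C.card * (S.filter (fun e => h e = v ∧ g e = c)).card =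
            (S.filter (fun e => h e = v)).card) := by
  choose pf pf1 pf2 pf3 using fun v => pad_spec hC (S.filter (fun e => f e = v)).card
  choose ph ph1 ph2 ph3 using fun v => pad_spec hC (S.filter (fun e => h e = v)).card
  set P : (β → ℕ) → Finset (Σ _ : β, ℕ) := fun p => univ.sigma (fun v => range (p v)) with hP
  have hP1 : ∀ p v, ((P p).filter (fun a => a.1 = v)).card = p v := by
    intro p v
    rw [card_filter, hP, sum_sigma]
    simp [apply_ite]
  have hP2 : ∀ p, (P p).card = ∑ v, p v := by intro p; simp [hP]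
  set S' := S.disjSum ((P pf).disjSum ((P ph).disjSum S)) with hS'
  have hsp : ∀ (Q : ι ⊕ (Σ _ : β, ℕ) ⊕ (Σ _ : β, ℕ) ⊕ ι → Prop) [DecidablePred Q],
      (S'.filter Q).card = (S.filter (fun e => Q (.inl e))).card +
        (((P pf).filter (fun e => Q (.inr (.inl e)))).card +
        (((P ph).filter (fun e => Q (.inr (.inr (.inl e))))).card +
          (S.filter (fun e => Q (.inr (.inr (.inr e))))).card)) := by
    intro Q _
    simp only [card_filter, hS', sum_disjSum]
  have htot : ∀ (f : ι → β) (p : β → ℕ),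
      (∀ v, C.card ∣ (S.filter (fun e => f e = v)).card + p v) → C.card ∣ ∑ v, p v + S.card := by
    intro f p hp
    rw [card_fib S univ f (fun _ _ => mem_univ _), ← sum_add_distrib]
    exact dvd_sum fun v _ => by rw [add_comm]; exact hp v
  set f' : ι ⊕ (Σ _ : β, ℕ) ⊕ (Σ _ : β, ℕ) ⊕ ι → Option β :=
    Sum.elim (fun e => some (f e)) (Sum.elim (fun a => some a.1) (fun _ => none)) with hf'
  set h' : ι ⊕ (Σ _ : β, ℕ) ⊕ (Σ _ : β, ℕ) ⊕ ι → Option β :=
    Sum.elim (fun e => some (h e)) (Sum.elim (fun _ => none)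
      (Sum.elim (fun a => some a.1) (fun _ => none))) with hh'
  have d1 : ∀ v, (S'.filter (fun e => f' e = some v)).card =
      (S.filter (fun e => f e = v)).card + pf v := by
    intro v; rw [hsp]; simp [hf', hP1]
  have d2 : ∀ v, (S'.filter (fun e => h' e = some v)).card =
      (S.filter (fun e => h e = v)).card + ph v := by
    intro v; rw [hsp]; simp [hh', hP1]
  obtain ⟨g, g1, g2, g3⟩ := split_even S' f' h' C hC
    (fun v => by
      cases v with
      | none => rw [hsp]; simpa [hf', hP2] using htot h ph ph2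
      | some v => rw [d1]; exact pf2 v)
    (fun v => by
      cases v with
      | none => rw [hsp]; simpa [hh', hP2] using htot f pf pf2
      | some v => rw [d2]; exact ph2 v)
  have hle : ∀ (p : β → ℕ) (v : β) (Q : (Σ _ : β, ℕ) → Prop) [DecidablePred Q],
      ((P p).filter (fun a => a.1 = v ∧ Q a)).card ≤ p v := by
    intro p v Q _
    rw [← hP1 p v]
    exact card_le_card fun a ha => mem_filter.2 ⟨(mem_filter.1 ha).1, (mem_filter.1 ha).2.1⟩
  refine ⟨fun e => g (.inl e), fun e he => g1 _ (by simp [hS', he]), fun c hc v => ?_⟩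
  have a1 := g2 c hc (some v)
  have a2 := g3 c hc (some v)
  rw [d1, hsp] at a1
  rw [d2, hsp] at a2
  simp only [hf', hh', Sum.elim_inl, Sum.elim_inr, Option.some.injEq, reduceCtorEq, false_and,
    filter_false, card_empty, add_zero, zero_add] at a1 a2
  have b1 := hle pf v (fun a => g (.inr (.inl a)) = c)
  have b2 := hle ph v (fun a => g (.inr (.inr (.inl a))) = c)
  have c1 := pf1 v
  have c2 := ph1 v
  have e1 := Nat.mul_le_mul_left C.card (b1.trans c1)
  have e2 := Nat.mul_le_mul_left C.card (b2.trans c2)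
  rw [mul_add] at a1 a2
  dsimp only
  refine ⟨⟨by omega, by rw [mul_add]; omega, fun h0 => ?_⟩, by omega, by rw [mul_add]; omega,
    fun h0 => ?_⟩
  · rw [pf3 v h0] at a1 b1
    rw [Nat.le_zero.1 b1] at a1
    omega
  · rw [ph3 v h0] at a2 b2
    rw [Nat.le_zero.1 b2] at a2
    omega

variable {V ι J : Type*} [Fintype V] [DecidableEq V] [Fintype ι] [DecidableEq ι] [DecidableEq J]

/-- Swapping the classes `j` and `i` inside pairs fixes the in-degrees of class `j`. -/
lemma fix_one (side : V → Bool) (tl hd : ι → V) (cls : ι → J) (j i : J) (hij : i ≠ j) (β : ℕ)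
    (hβ : 1 ≤ β) (hq : ∀ v, β ∣ (univ.filter (fun e => cls e = j ∧ tl e = v)).card)
    (hin : ∀ σ, β ∣ (univ.filter
      (fun e => cls e = j ∧ side (tl e) = σ ∧ side (hd e) = σ)).card)
    (P : Finset ι) (mate : ι → ι) (hinj : Set.InjOn mate P)
    (hP : ∀ e ∈ P, cls e = j ∧ cls (mate e) = i ∧ tl (mate e) = tl e ∧
      side (hd e) ≠ side (tl e) ∧ side (hd (mate e)) ≠ side (tl e))
    (hcut : ∀ σ, ∀ A ⊆ univ.filter (fun v => side v ≠ σ), A.Nonempty →
      A ≠ univ.filter (fun v => side v ≠ σ) →
        3 * β ≤ cutN (P.filter (fun e => side (tl e) = σ)) hd (fun e => hd (mate e)) A) :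
    ∃ cls' : ι → J, (∀ v k, (univ.filter (fun e => cls' e = k ∧ tl e = v)).card =
        (univ.filter (fun e => cls e = k ∧ tl e = v)).card) ∧
      (∀ v, β ∣ (univ.filter (fun e => cls' e = j ∧ hd e = v)).card) ∧
      (∀ e, e ∉ P → e ∉ P.image mate → cls' e = cls e) ∧
      ∀ e k, k ≠ j → k ≠ i → (cls' e = k ↔ cls e = k) := by
  obtain ⟨c, h1, h2, h3⟩ := fix_heads (J := Bool) side tl hd (fun x => if x then β else 1)
    (fun x => by cases x <;> simp [hβ]) false rfl (fun e => decide (cls e = j))
    (fun v x => by cases x <;> simp [hq]) (fun σ x => by cases x <;> simp [hin]) P mate hinj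
    (fun e he => by
      obtain ⟨a1, a2, a3⟩ := hP e he
      exact ⟨by simp [a1], by simp [a2, hij], a3⟩)
    (fun σ x hx A a1 a2 a3 => by
      cases x
      · exact absurd rfl hx
      · rw [filter_congr (q := fun e => side (tl e) = σ) (fun e he => by simp [(hP e he).1])]
        exact hcut σ A a1 a2 a3)
  set cls' : ι → J := fun e => if c e then j else if cls e = j then i else cls e with hc
  have k1 : ∀ e, cls' e = j ↔ c e = true := by
    intro e
    simp only [hc]
    split_ifs with a1 a2 <;> simp [*]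
  have k2 : ∀ e, e ∉ P → e ∉ P.image mate → cls' e = cls e := by
    intro e a1 a2
    simp only [hc, h3 e a1 a2, decide_eq_true_eq]
    split_ifs with a3
    · exact a3.symm
    · rfl
  have k3 : ∀ e, (cls' e = j ∨ cls' e = i) ↔ (cls e = j ∨ cls e = i) := by
    intro e
    by_cases a1 : e ∈ P ∨ e ∈ P.image mate
    · have a2 : cls e = j ∨ cls e = i := by
        rcases a1 with a1 | a1
        · exact Or.inl (hP e a1).1
        · obtain ⟨f, hf, rfl⟩ := mem_image.1 a1
          exact Or.inr (hP f hf).2.1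
      refine iff_of_true ?_ a2
      simp only [hc]
      split_ifs <;> tauto
    · rw [not_or] at a1
      rw [k2 e a1.1 a1.2]
  have k4 : ∀ e k, k ≠ j → k ≠ i → (cls' e = k ↔ cls e = k) := by
    intro e k a1 a2
    by_cases a3 : cls e = j ∨ cls e = i
    · have a4 := (k3 e).2 a3
      constructor <;> rintro rfl <;> tauto
    · have a4 : c e = false := by
        by_contra a4
        exact a3 ((k3 e).1 (Or.inl ((k1 e).2 (by simpa using a4))))
      rw [not_or] at a3
      simp only [hc, a4, if_neg a3.1]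
      simp
  have k5 : ∀ v, (univ.filter (fun e => cls' e = j ∧ tl e = v)).card =
      (univ.filter (fun e => cls e = j ∧ tl e = v)).card := by
    intro v
    simpa [k1] using h1 v true
  refine ⟨cls', fun v k => ?_, fun v => by simpa [k1] using h2 v true, k2, k4⟩
  by_cases a1 : k = j
  · rw [a1]; exact k5 v
  by_cases a2 : k = i
  · have key : ∀ c : ι → J, (univ.filter (fun e => (c e = j ∨ c e = i) ∧ tl e = v)).card =
        (univ.filter (fun e => c e = j ∧ tl e = v)).card +
        (univ.filter (fun e => c e = i ∧ tl e = v)).card := by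
      intro c
      simp only [or_and_right]
      rw [filter_or, card_union_of_disjoint]
      exact disjoint_filter.2 fun e _ b1 b2 => hij (b2.1.symm.trans b1.1)
    have b1 := key cls'
    have b2 := key cls
    have b3 := k5 v
    simp only [k3] at b1
    rw [a2]
    omega
  · simp only [k4 _ k a1 a2]

/-- Fixing all in-degrees, class by class. -/
lemma fix_all [Fintype J] (side : V → Bool) (tl hd : ι → V) (b : J → ℕ) (hb : ∀ j, 1 ≤ b j) (l : J)
    (hl : b l = 1) (μ : J → J) (ρ : J → ℕ) (hρ : Function.Injective ρ)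
    (hμ : ∀ j, j ≠ l → ρ (μ j) < ρ j) (cls : ι → J)
    (hq : ∀ v j, b j ∣ (univ.filter (fun e => cls e = j ∧ tl e = v)).card)
    (hin : ∀ σ j, b j ∣ (univ.filter
      (fun e => cls e = j ∧ side (tl e) = σ ∧ side (hd e) = σ)).card)
    (P : Finset ι) (mate : ι → ι) (hinj : Set.InjOn mate P)
    (hP : ∀ e ∈ P, cls e ≠ l ∧ cls (mate e) = μ (cls e) ∧ mate e ∉ P ∧ tl (mate e) = tl e ∧
      side (hd e) ≠ side (tl e) ∧ side (hd (mate e)) ≠ side (tl e))
    (hcut : ∀ σ j, j ≠ l → ∀ A ⊆ univ.filter (fun v => side v ≠ σ), A.Nonempty →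
      A ≠ univ.filter (fun v => side v ≠ σ) →
        3 * b j ≤ cutN (P.filter (fun e => cls e = j ∧ side (tl e) = σ)) hd
          (fun e => hd (mate e)) A) :
    ∃ cls' : ι → J, (∀ v j, (univ.filter (fun e => cls' e = j ∧ tl e = v)).card =
        (univ.filter (fun e => cls e = j ∧ tl e = v)).card) ∧
      (∀ v j, b j ∣ (univ.filter (fun e => cls' e = j ∧ hd e = v)).card) ∧
      ∀ e, e ∉ P → e ∉ P.image mate → cls' e = cls e := by
  have key : ∀ k n, n + k = univ.sup ρ + 1 → ∃ cls' : ι → J,
      (∀ v j, (univ.filter (fun e => cls' e = j ∧ tl e = v)).card =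
        (univ.filter (fun e => cls e = j ∧ tl e = v)).card) ∧
      (∀ v j, n ≤ ρ j → b j ∣ (univ.filter (fun e => cls' e = j ∧ hd e = v)).card) ∧
      ∀ e, (∀ f ∈ P, n ≤ ρ (cls f) → e ≠ f ∧ e ≠ mate f) → cls' e = cls e := by
    intro k
    induction k with
    | zero =>
      intro n hn
      refine ⟨cls, fun _ _ => rfl, fun v j h => ?_, fun _ _ => rfl⟩
      have : ρ j ≤ univ.sup ρ := le_sup (mem_univ j)
      omega
    | succ k ih =>
      intro n hn
      obtain ⟨c, h1, h2, h3⟩ := ih (n + 1) (by omega)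
      by_cases h4 : ∃ j, j ≠ l ∧ ρ j = n
      swap
      · refine ⟨c, h1, fun v j h => ?_, fun e h => h3 e fun f hf h5 => h f hf (by omega)⟩
        by_cases h5 : j = l
        · rw [h5, hl]; exact one_dvd _
        · exact h2 v j (lt_of_le_of_ne h fun h6 => h4 ⟨j, h5, h6.symm⟩)
      obtain ⟨j, hj, rfl⟩ := h4
      have hμj := hμ j hj
      have c1 : ∀ e ∈ P.filter (fun e => cls e = j), c e = j ∧ c (mate e) = μ j := by
        intro e he
        obtain ⟨a1, a2⟩ := mem_filter.1 he
        have a3 : ∀ f ∈ P, ρ j + 1 ≤ ρ (cls f) → e ≠ f := by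
          rintro f _ a4 rfl
          rw [a2] at a4
          omega
        constructor
        · rw [h3 e fun f hf a4 => ⟨a3 f hf a4, fun a5 => (hP f hf).2.2.1 (a5 ▸ a1)⟩, a2]
        · rw [h3 (mate e) fun f hf a4 => ⟨fun a5 => (hP e a1).2.2.1 (a5 ▸ hf),
            fun a5 => a3 f hf a4 (hinj a1 hf a5)⟩, (hP e a1).2.1, a2]
      obtain ⟨c', k1, k2, k3, k4⟩ := fix_one side tl hd c j (μ j)
        (fun h => by rw [h] at hμj; omega) (b j) (hb j) (fun v => by rw [h1]; exact hq v j)
        (fun σ => by
          rw [filter_congr (q := fun e => cls e = j ∧ side (tl e) = σ ∧ side (hd e) = σ)]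
          · exact hin σ j
          · intro e _
            refine and_congr_left fun a1 => ?_
            rw [h3 e fun f hf _ => ⟨?_, ?_⟩]
            · rintro rfl
              exact (hP e hf).2.2.2.2.1 (a1.2.trans a1.1.symm)
            · rintro rfl
              rw [(hP f hf).2.2.2.1] at a1
              exact (hP f hf).2.2.2.2.2 (a1.2.trans a1.1.symm))
        (P.filter (fun e => cls e = j)) mate (hinj.mono (filter_subset _ _))
        (fun e he => ⟨(c1 e he).1, (c1 e he).2, (hP e (mem_filter.1 he).1).2.2.2⟩)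
        (fun σ A a1 a2 a3 => by rw [filter_filter]; exact hcut σ j hj A a1 a2 a3)
      refine ⟨c', fun v i => by rw [k1, h1], fun v i h => ?_, fun e h => ?_⟩
      · by_cases h5 : i = j
        · rw [h5]; exact k2 v
        · have h6 : ρ j + 1 ≤ ρ i := lt_of_le_of_ne h fun h6 => h5 (hρ h6).symm
          simp only [k4 _ i h5 (fun h7 => by rw [h7] at h6; omega)]
          exact h2 v i h6
      · rw [k3 e (fun a1 => (h e (mem_filter.1 a1).1 (by rw [(mem_filter.1 a1).2])).1 rfl)
          (fun a1 => by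
            obtain ⟨f, hf, rfl⟩ := mem_image.1 a1
            exact (h f (mem_filter.1 hf).1 (by rw [(mem_filter.1 hf).2])).2 rfl)]
        exact h3 e fun f hf h5 => h f hf (by omega)
  obtain ⟨c, h1, h2, h3⟩ := key (univ.sup ρ + 1) 0 (zero_add _)
  exact ⟨c, h1, fun v j => h2 v j (Nat.zero_le _), fun e a1 a2 => h3 e fun f hf _ =>
    ⟨fun h => a1 (h ▸ hf), fun h => a2 (h ▸ mem_image_of_mem _ hf)⟩⟩

end Pool.Agent.Lib.MP_1c8ed6_co.Lin
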