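import Pool.Agent.Lib.MP_1c8ed6_co.Lin.Discharge
import Pool.Agent.Lib.MP_1c8ed6_co.Lin.Split

/-! An orientation with balanced connected jobs and many free arcs. -/

set_option autoImplicit false

namespace Pool.Agent.Lib.MP_1c8ed6_co.Lin

open Finset Pool.Agent.Lib.MP_ae5681_co

lemma frame_num {m D r g f : ℕ} (hm : 1 ≤ m) (h1 : 120 * m ≤ 2 ^ r) (h2 : r ≤ 8 + m)
    (h3 : 84000 * m ^ 2 + 20 * m * D ≤ 2 * g) (h4 : g ≤ f + 15 * m * (g / 2 ^ r + 3 * r)) :
    12 * (g / 2 ^ r + 3 * r) + (8 * m + 1) + 8 * m ≤ f / (8 * m) ∧ D + 8 * m ≤ f / (8 * m) := by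
  have a1 : 120 * (m * (g / 2 ^ r)) ≤ g :=
    calc 120 * (m * (g / 2 ^ r)) = (g / 2 ^ r) * (120 * m) := by ring
      _ ≤ (g / 2 ^ r) * 2 ^ r := Nat.mul_le_mul_left _ h1
      _ ≤ g := Nat.div_mul_le_self _ _
  have a2 : m * r ≤ 9 * m ^ 2 := by nlinarith
  have a3 : m ≤ m ^ 2 := by nlinarith
  generalize g / 2 ^ r = y at a1 h4 ⊢
  constructor <;> rw [Nat.le_div_iff_mul_le (by omega)] <;> nlinarith

variable {V ι : Type*} [Fintype V] [DecidableEq V] [Fintype ι] [DecidableEq ι]

omit [Fintype V] [Fintype ι] in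
lemma cutN_le_dg (F : Finset ι) (s t : ι → V) (v : V) : cutN F s t {v} ≤ dg F s t v := by
  rw [dg_eq]
  refine le_trans (card_le_card ?_) (card_union_le _ _)
  intro e he
  obtain ⟨h1, h2⟩ := mem_filter.1 he
  simp only [mem_singleton] at h2
  simp only [mem_union, mem_filter, h1, true_and]
  tauto

lemma exists_frame [Nonempty V] {Job : Type*} [Fintype Job] [DecidableEq Job] [Inhabited Job]
    (s t : ι → V) (m D : ℕ) (hm : 1 ≤ m) (hJ : Fintype.card Job ≤ 6 * m)
    (hcut : ∀ A : Finset V, A.Nonempty → A ≠ univ → 1000 * m ≤ cutN univ s t A)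
    (hdeg : ∀ v, 84000 * m ^ 2 + 20 * m * D ≤ cutN univ s t {v}) (hdvd : m ∣ Fintype.card ι) :
    ∃ (side : V → Bool) (tl hd : ι → V) (Us Fr : Finset ι) (w : ι → Job) (col : ι → ℕ)
      (lo u : V → ℕ), (∀ e, Joins s t e (tl e) (hd e)) ∧
      (∀ v, m ∣ (univ.filter (fun e => tl e = v)).card) ∧
      (∀ e ∈ Us, side (hd e) ≠ side (tl e)) ∧ (∀ e ∈ Fr, side (hd e) ≠ side (tl e)) ∧
      Disjoint Us Fr ∧
      (∀ σ jb, Conn (Us.filter (fun e => side (tl e) = σ ∧ w e = jb)) tl hd) ∧
      (∀ v jb, (Us.filter (fun e => tl e = v ∧ w e = jb)).card ≤ u v) ∧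
      (∀ i < 4 * m, ∀ v, lo v ≤ (Fr.filter (fun e => tl e = v ∧ col e = i)).card ∧
        (Fr.filter (fun e => tl e = v ∧ col e = i)).card ≤ lo v + (8 * m + 1) ∧
        lo v ≤ (Fr.filter (fun e => hd e = v ∧ col e = i)).card) ∧
      ∀ v, 12 * u v + (8 * m + 1) ≤ lo v ∧ D ≤ lo v := by
  obtain ⟨X, hX⟩ := exists_maxcut s t
  set B := univ.filter (fun e => ¬ (s e ∈ X ↔ t e ∈ X)) with hB
  set r := Nat.log 2 (240 * m) with hr
  have r1 : 2 ^ r ≤ 240 * m := Nat.pow_log_le_self 2 (by omega)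
  have r2 : 240 * m < 2 ^ (r + 1) := Nat.lt_pow_succ_log_self (by norm_num) _
  rw [pow_succ] at r2
  have r3 : r ≤ 8 + m := by
    have a1 : m < 2 ^ m := Nat.lt_two_pow_self
    have a2 : 2 ^ r < 2 ^ (8 + m) := by rw [pow_add]; omega
    exact ((Nat.pow_lt_pow_iff_right (by norm_num)).1 a2).le
  have hcX : Fintype.card (Fin (3 * m) ⊕ Bool × Job) ≤ 15 * m := by
    simp only [Fintype.card_sum, Fintype.card_fin, Fintype.card_prod, Fintype.card_bool]
    omega
  obtain ⟨R, hR1, hR2, hR3⟩ := balanced_pack (X := Fin (3 * m) ⊕ Bool × Job) B s t r (by omega)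
    (fun A h1 h2 => by
      have := hcut A h1 h2
      have := hX A
      omega)
  set u : V → ℕ := fun v => dg B s t v / 2 ^ r + 3 * r with hu
  have hRu : ∀ x v, dg (R x) s t v ≤ u v := by
    intro x v
    have h1 : dg (R x) s t v ≤ (dg B s t v + 2 ^ r * (3 * r)) / 2 ^ r :=
      (Nat.le_div_iff_mul_le (by positivity)).2 (by rw [mul_comm]; exact hR3 x v)
    rwa [Nat.add_mul_div_left _ _ (by positivity)] at h1
  set Fr := B \ univ.biUnion R with hFr
  have hf : ∀ v, dg B s t v ≤ dg Fr s t v + 15 * m * u v := by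
    intro v
    have h1 : dg (univ.biUnion R) s t v = ∑ x, dg (R x) s t v :=
      sum_biUnion fun i _ j _ hij => hR2 i j hij
    have h2 : ∑ x, dg (R x) s t v ≤ Fintype.card (Fin (3 * m) ⊕ Bool × Job) * u v := by
      simpa using sum_le_card_nsmul univ _ _ fun x _ => hRu x v
    have h3 := Nat.mul_le_mul_right (u v) hcX
    have h4 := dg_union (s := s) (t := t) (sdiff_disjoint (s := univ.biUnion R) (t := B)) v
    rw [sdiff_union_of_subset (biUnion_subset.2 fun x _ => (hR1 x).1), ← hFr] at h4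
    omega
  set side : V → Bool := fun v => decide (v ∈ X) with hside
  have hBs : ∀ e ∈ B, side (t e) = !side (s e) := by
    intro e he
    have := (mem_filter.1 he).2
    by_cases a1 : s e ∈ X <;> by_cases a2 : t e ∈ X <;> simp [hside, a1, a2] at this ⊢
  set en : Bool → ι → V := fun τ e => if side (s e) = τ then s e else t e with hen
  have hen1 : ∀ τ, ∀ e ∈ B, side (en τ e) = τ := by
    intro τ e he
    have := hBs e he
    simp only [hen]
    split_ifs with h
    · exact h
    · rw [this]; revert h; cases side (s e) <;> cases τ <;> simp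
  have hen2 : ∀ v, (Fr.filter (fun e => en (side v) e = v)).card = dg Fr s t v := by
    intro v
    rw [card_filter]
    refine sum_congr rfl fun e he => ?_
    have := hBs e (mem_sdiff.1 he).1
    simp only [hen, wt]
    by_cases a1 : s e = v
    · have a2 : t e ≠ v := by
        intro a2
        rw [a1, a2] at this
        simp at this
      simp [a1, a2]
    · by_cases a2 : t e = v
      · have a3 : side (s e) ≠ side v := by
          rw [← a2, this]; simp
        simp [a1, a2, a3]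
      · split_ifs <;> simp_all
  obtain ⟨c, hc1, hc2⟩ := split_eq Fr (en true) (en false) ((univ : Finset Bool) ×ˢ range (4 * m))
    (by simp; omega)
  have hk : ((univ : Finset Bool) ×ˢ range (4 * m)).card = 8 * m := by simp; omega
  rw [hk] at hc2
  have hc3 : ∀ σ i, i < 4 * m → ∀ v,
      dg Fr s t v / (8 * m) ≤ (Fr.filter (fun e => en (side v) e = v ∧ c e = (σ, i))).card + 8 * m ∧
      (Fr.filter (fun e => en (side v) e = v ∧ c e = (σ, i))).card ≤ dg Fr s t v / (8 * m) + 1 := by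
    intro σ i hi v
    have h1 := hc2 (σ, i) (by simp [hi]) v
    have h2 : 8 * m * (Fr.filter (fun e => en (side v) e = v ∧ c e = (σ, i))).card ≤
        dg Fr s t v + 8 * m ∧ dg Fr s t v ≤
        8 * m * ((Fr.filter (fun e => en (side v) e = v ∧ c e = (σ, i))).card + 8 * m) := by
      rw [← hen2]
      cases side v
      · exact ⟨h1.2.1, h1.2.2.1⟩
      · exact ⟨h1.1.1, h1.1.2.1⟩
    refine ⟨Nat.div_le_of_le_mul h2.2, ?_⟩
    rw [← Nat.add_div_right _ (by omega : 0 < 8 * m), Nat.le_div_iff_mul_le (by omega), mul_comm]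
    exact h2.1
  have hz : ∀ e, ∃ z : Bool × Job, (∀ z', e ∈ R (.inr z') → z = z') ∧ (e ∈ Fr → z.1 = (c e).1) := by
    intro e
    by_cases h : ∃ z, e ∈ R (.inr z)
    · obtain ⟨z, h⟩ := h
      refine ⟨z, fun z' h' => ?_, fun h' => absurd (mem_biUnion.2 ⟨_, mem_univ _, h⟩)
        (mem_sdiff.1 h').2⟩
      by_contra h1
      exact disjoint_left.1 (hR2 _ _ (by simpa using h1)) h h'
    · exact ⟨((c e).1, default), fun z' h' => absurd ⟨z', h'⟩ h, fun _ => rfl⟩
  choose z hz1 hz2 using hz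
  set G0 := univ.biUnion (fun i => R (.inl i)) with hG0
  set o0 : ι → Bool := fun e => decide (side (s e) = (z e).1) with ho0
  obtain ⟨o1, ho1⟩ := mod_orient hm univ G0 s t (fun _ _ => ⟨mem_univ _, mem_univ _⟩)
    (fun A _ h1 h2 => by
      have := card_le_of_disjoint (univ : Finset (Fin (3 * m))) (fun i => R (.inl i))
        (G0.filter (fun e => ¬ (s e ∈ A ↔ t e ∈ A))) (fun i _ => by
          obtain ⟨e, he, hc⟩ := (hR1 (.inl i)).2 A h1 h2
          exact ⟨e, he, mem_filter.2 ⟨mem_biUnion.2 ⟨i, mem_univ _, he⟩, hc⟩⟩)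
        (fun i _ i' _ e he he' => by
          by_contra h3
          exact disjoint_left.1 (hR2 _ _ (by simpa using h3)) he he')
      simpa [cutN] using this)
    (fun v => -(((univ \ G0).filter (fun e => (if o0 e then s e else t e) = v)).card : ℤ))
    (by
      rw [sum_neg_distrib, ← Nat.cast_sum, ← card_fib _ univ _ (fun _ _ => mem_univ _)]
      have h1 := card_sdiff_add_card_eq_card (subset_univ G0)
      rw [card_univ] at h1
      have h2 : (m : ℤ) ∣ (Fintype.card ι : ℤ) := Int.natCast_dvd_natCast.2 hdvd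
      refine dvd_eq ((dvd_neg).2 h2) ?_
      omega)
  set o : ι → Bool := fun e => if e ∈ G0 then o1 e else o0 e with ho
  set tl : ι → V := fun e => if o e then s e else t e with htl
  set hd : ι → V := fun e => if o e then t e else s e with hhd
  have hj : ∀ e, Joins s t e (tl e) (hd e) := by
    intro e
    simp only [htl, hhd]
    cases o e
    · exact Or.inr ⟨rfl, rfl⟩
    · exact Or.inl ⟨rfl, rfl⟩
  have hte : ∀ e ∈ B, e ∉ G0 → tl e = en (z e).1 e ∧ hd e = en (!(z e).1) e := by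
    intro e he h0
    simp only [htl, hhd, ho, ho0, hen, if_neg h0, decide_eq_true_eq, true_and]
    cases side (s e) <;> cases (z e).1 <;> simp
  have hcr : ∀ e ∈ B, e ∉ G0 → side (tl e) = (z e).1 ∧ side (hd e) = !(z e).1 := by
    intro e he h0
    rw [(hte e he h0).1, (hte e he h0).2]
    exact ⟨hen1 _ e he, hen1 _ e he⟩
  set Us := univ.biUnion (fun z => R (.inr z)) with hUs
  have hRB : ∀ z', ∀ e ∈ R (.inr z'), e ∈ B ∧ e ∉ G0 := by
    refine fun z' e he => ⟨(hR1 _).1 he, fun h => ?_⟩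
    obtain ⟨i, -, hi⟩ := mem_biUnion.1 h
    exact disjoint_left.1 (hR2 _ _ (by simp)) he hi
  have hUB : ∀ e ∈ Us, e ∈ R (.inr (z e)) := by
    intro e he
    obtain ⟨z', -, h⟩ := mem_biUnion.1 he
    rwa [hz1 e z' h]
  have hFB : ∀ e ∈ Fr, e ∈ B ∧ e ∉ G0 := by
    refine fun e he => ⟨(mem_sdiff.1 he).1, fun h => (mem_sdiff.1 he).2 ?_⟩
    obtain ⟨i, -, hi⟩ := mem_biUnion.1 h
    exact mem_biUnion.2 ⟨_, mem_univ _, hi⟩
  have hnum := fun v => frame_num (D := D) (g := dg B s t v) (f := dg Fr s t v) hm (by omega) r3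
    (by
      have := hdeg v
      have := hX {v}
      have := cutN_le_dg B s t v
      omega) (hf v)
  refine ⟨side, tl, hd, Us, Fr, fun e => (z e).2, fun e => (c e).2,
    fun v => dg Fr s t v / (8 * m) - 8 * m, u, hj, fun v => ?_, fun e he => ?_, fun e he => ?_, ?_,
    fun σ jb => ?_, fun v jb => ?_, fun i hi v => ?_, fun v => ?_⟩
  · have h1 := ho1 v (mem_univ _)
    have h2 : (univ.filter (fun e => tl e = v)).card =
        (G0.filter (fun e => (if o1 e then s e else t e) = v)).card +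
        ((univ \ G0).filter (fun e => (if o0 e then s e else t e) = v)).card := by
      rw [← card_union_of_disjoint (disjoint_filter_filter disjoint_sdiff)]
      congr 1
      ext e
      by_cases he : e ∈ G0 <;> simp [htl, ho, he]
    rw [← Int.natCast_dvd_natCast, h2]
    refine dvd_eq h1 ?_
    push_cast
    ring
  · obtain ⟨h1, h2⟩ := hRB _ e (hUB e he)
    rw [(hcr e h1 h2).1, (hcr e h1 h2).2]
    simp
  · obtain ⟨h1, h2⟩ := hFB e he
    rw [(hcr e h1 h2).1, (hcr e h1 h2).2]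
    simp
  · exact disjoint_left.2 fun e he h =>
      (mem_sdiff.1 h).2 (mem_biUnion.2 ⟨_, mem_univ _, hUB e he⟩)
  · intro A h1 h2
    obtain ⟨e, he, h3⟩ := (hR1 (.inr (σ, jb))).2 A h1 h2
    obtain ⟨h4, h5⟩ := hRB _ e he
    refine ⟨e, mem_filter.2 ⟨mem_biUnion.2 ⟨_, mem_univ _, he⟩, ?_, ?_⟩,
      fun h => h3 ((cross_joins (hj e) A).2 h)⟩
    · rw [(hcr e h4 h5).1, hz1 e _ he]
    · simp only [hz1 e _ he]
  · refine le_trans ?_ (hRu (.inr (side v, jb)) v)
    have h1 : dg (R (.inr (side v, jb))) s t v = dg (R (.inr (side v, jb))) tl hd v :=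
      sum_congr rfl fun e _ => wt_joins (hj e) v
    rw [h1, dg_eq]
    refine le_trans (card_le_card fun e he => ?_) (Nat.le_add_right _ _)
    obtain ⟨a1, a2, a3⟩ := mem_filter.1 he
    have a4 := hUB e a1
    obtain ⟨h4, h5⟩ := hRB _ e a4
    have a5 : z e = (side v, jb) := Prod.ext (by rw [← a2, (hcr e h4 h5).1]) a3
    exact mem_filter.2 ⟨a5 ▸ a4, a2⟩
  · have h1 : Fr.filter (fun e => tl e = v ∧ (c e).2 = i) =
        Fr.filter (fun e => en (side v) e = v ∧ c e = (side v, i)) := by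
      refine filter_congr fun e he => ?_
      obtain ⟨a1, a2⟩ := hFB e he
      have a3 := (hte e a1 a2).1
      have a4 := (hcr e a1 a2).1
      rw [hz2 e he] at a3 a4
      constructor
      · rintro ⟨b1, b2⟩
        rw [b1] at a4
        exact ⟨by rw [a4, ← a3, b1], Prod.ext a4.symm b2⟩
      · rintro ⟨b1, b2⟩
        rw [b2] at a3
        exact ⟨a3.trans b1, by rw [b2]⟩
    have h2 : Fr.filter (fun e => hd e = v ∧ (c e).2 = i) =
        Fr.filter (fun e => en (side v) e = v ∧ c e = (!side v, i)) := by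
      refine filter_congr fun e he => ?_
      obtain ⟨a1, a2⟩ := hFB e he
      have a3 := (hte e a1 a2).2
      have a4 := (hcr e a1 a2).2
      rw [hz2 e he] at a3 a4
      constructor
      · rintro ⟨b1, b2⟩
        rw [b1] at a4
        exact ⟨by rw [a4, ← a3, b1], Prod.ext (by rw [a4]; simp) b2⟩
      · rintro ⟨b1, b2⟩
        rw [b2, Bool.not_not] at a3
        exact ⟨a3.trans b1, by rw [b2]⟩
    have h3 := hc3 (side v) i hi v
    have h4 := hc3 (!side v) i hi v
    have h5 := (hnum v).2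
    dsimp only
    rw [h1, h2]
    omega
  · have h5 := hnum v
    simp only [hu]
    omega

end Pool.Agent.Lib.MP_1c8ed6_co.Lin
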