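import Pool.Agent.Lib.MP_1c8ed6_co.Lin.Colour
import Pool.Agent.Lib.MP_ae5681_co.Decomp
import Pool.Agent.Lib.MP_ae5681_co.Tree

/-! Tree decompositions from linear connectivity and polynomial minimum degree. -/

set_option autoImplicit false

namespace Pool.Agent.Lib.MP_1c8ed6_co.Lin

open Pool.Agent.Lib.MP_ae5681_co

/-- Decomposition into injective copies of a rooted tree: linear connectivity, large degrees. -/
theorem exists_decomp_lin {V ι : Type} [Fintype V] [DecidableEq V] [Fintype ι] [DecidableEq ι]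
    [Nonempty V] (s t : ι → V) (hloop : ∀ e, s e ≠ t e)
    (hsimple : ∀ e e' x y, Joins s t e x y → Joins s t e' x y → e = e') (m : ℕ) (hm : 1 ≤ m)
    (par : ℕ → ℕ) (hpar : ∀ c, 1 ≤ c → par c < c)
    (hcut : ∀ A : Finset V, A.Nonempty → A ≠ Finset.univ →
      1000 * m ≤ cutN Finset.univ s t A)
    (hdeg : ∀ v, 125000 * m ^ 7 ≤ cutN Finset.univ s t {v})
    (hdvd : m ∣ Fintype.card ι) :
    ∃ (k : ℕ) (φ : Fin k → ℕ → V) (ε : Fin k → ℕ → ι),
      (∀ x c, 1 ≤ c → c ≤ m → Joins s t (ε x c) (φ x (par c)) (φ x c)) ∧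
      (∀ x s1 s2, s1 < s2 → s2 ≤ m → φ x s1 ≠ φ x s2) ∧
      ∀ e, ∃! x, ∃ c, 1 ≤ c ∧ c ≤ m ∧ ε x c = e := by
  have hm6 : 1 ≤ m ^ 6 := Nat.one_le_pow _ _ hm
  have hD : 0 < 2048 * m ^ 6 := by omega
  obtain ⟨up, dn, col, d, hj, hcol, hd, hdD⟩ := Lin.exists_colouring s t m (2048 * m ^ 6) hm
    par hpar hcut (fun v => le_trans (by
      have h1 : m ^ 2 ≤ m ^ 7 := Nat.pow_le_pow_right hm (by norm_num)
      have h2 : 20 * m * (2048 * m ^ 6 + m) = 40960 * m ^ 7 + 20 * m ^ 2 := by ring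
      omega) (hdeg v)) hdvd
  obtain ⟨cu, hcu1, hcu2⟩ := exists_clones col up m _ hD hcol (fun c => d (par c))
    (fun c h1 h2 v => ⟨(hd c h1 h2 v).1, hdD _ (by have := hpar c h1; omega) v⟩)
  obtain ⟨cd, hcd1, hcd2⟩ := exists_clones col dn m _ hD hcol d
    (fun c h1 h2 v => ⟨(hd c h1 h2 v).2, hdD _ h2 v⟩)
  have hl : ∀ e, (cu e).1 ≠ (cd e).1 := by
    intro e h
    rw [hcu1, hcd1] at h
    rcases hj e with ⟨h1, h2⟩ | ⟨h1, h2⟩ <;> exact hloop e (by rw [h1, h2, h])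
  obtain ⟨ν, ε, hst⟩ := exists_stage (H := {e // col e = 1}) (π := Prod.fst) (par := par)
    (col := col) (cu := cu) (cd := cd) (sz := fun c μ => szf (2048 * m ^ 6) (d c μ.1) μ.2)
    (j := 12 + 6 * m) (m := m) hD hpar hcu2 hcd2
    (fun c _ μ => ⟨(szf_bound hD _ _).1, (szf_bound hD _ _).2.trans (by
      have h1 : m ^ 6 ≤ (2 ^ m) ^ 6 := Nat.pow_le_pow_left Nat.lt_two_pow_self.le 6
      rw [pow_add, mul_comm 6 m, pow_mul]
      omega)⟩)
    (fun e e' h1 h2 => hsimple e e' _ _ (hj e) (by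
      rw [hcu1, hcu1] at h1
      rw [hcd1, hcd1] at h2
      rw [h1, h2]; exact hj e'))
    hl (fun x => cu x.1) Subtype.val (fun μ => by
      have h1 := hcu2 1 le_rfl hm μ
      have h2 : par 1 = 0 := by have := hpar 1 le_rfl; omega
      rw [h2] at h1
      rw [← h1]
      apply Finset.card_bij (fun x _ => x.1)
      · intro x hx
        exact Finset.mem_filter.2 ⟨Finset.mem_univ _, x.2, (Finset.mem_filter.1 hx).2⟩
      · intro x _ y _ h
        exact Subtype.ext h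
      · intro e he
        obtain ⟨-, h3, h4⟩ := Finset.mem_filter.1 he
        exact ⟨⟨e, h3⟩, Finset.mem_filter.2 ⟨Finset.mem_univ _, h4⟩, rfl⟩) m le_rfl
  obtain ⟨φ, ε', h1, h2⟩ := repair hpar hm hD (fun c _ μ => (szf_bound hD _ _).1) hl
    (num_bound m hm) hst
  set q := (Fintype.equivFin {e // col e = 1}).symm
  refine ⟨_, fun x => φ (q x), fun x => ε' (q x), fun x c h3 h4 => ?_, fun x => h2 (q x),
    fun e => ?_⟩
  · obtain ⟨-, a1, a2⟩ := (h1 c h3 h4).1 (q x)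
    simp only [hcu1, hcd1] at a1 a2
    simp only [← a1, ← a2]
    exact hj _
  · obtain ⟨x, hx⟩ := (h1 (col e) (hcol e).1 (hcol e).2).2.2 e rfl
    refine ⟨q.symm x, ⟨col e, (hcol e).1, (hcol e).2, by simpa using hx⟩, ?_⟩
    rintro y ⟨c, h3, h4, h5⟩
    have h6 : col e = c := by rw [← h5]; exact ((h1 c h3 h4).1 (q y)).1
    subst h6
    have := (h1 (col e) h3 h4).2.1 (h5.trans hx.symm)
    rw [← this, Equiv.symm_apply_apply]

/-- Linear edge-connectivity and polynomial degrees force decompositions into a given tree. -/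
theorem tree_decomp_lin (W : Type) [Fintype W] (T : SimpleGraph W) (hT : T.IsTree) (V : Type)
    [Fintype V] (G : SimpleGraph V)
    (hG : ∀ s : Set (Sym2 V), s.ncard < 1000 * T.edgeSet.ncard → (G.deleteEdges s).Connected)
    (hδ : ∀ v, 125000 * T.edgeSet.ncard ^ 7 ≤ (G.neighborSet v).ncard)
    (hdvd : T.edgeSet.ncard ∣ G.edgeSet.ncard) :
    ∃ (k : ℕ) (H : Fin k → G.Subgraph), (∀ i, Nonempty (T ≃g (H i).coe)) ∧
      ∀ e ∈ G.edgeSet, ∃! i, e ∈ (H i).edgeSet := by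
  classical
  by_cases hE : G.edgeSet = ∅
  · exact ⟨0, fun i => i.elim0, fun i => i.elim0, fun e he => by rw [hE] at he; exact he.elim⟩
  obtain ⟨pos, par, hp1, hp2, hp3, hpar, hadj⟩ := exists_numbering T hT
  set m := T.edgeSet.ncard with hm
  have hm1 : 1 ≤ m := by
    by_contra h
    have h0 : m = 0 := by omega
    rw [h0, zero_dvd_iff, Set.ncard_eq_zero (Set.toFinite _)] at hdvd
    exact hE hdvd
  have hends : ∀ e : G.edgeSet, ∃ x y, e.1 = s(x, y) := fun e =>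
    Sym2.ind (fun x y => ⟨x, y, rfl⟩) e.1
  choose s t hst using hends
  have hj : ∀ e x y, Joins s t e x y → e.1 = s(x, y) := by
    intro e x y h
    rw [hst e]
    exact Sym2.eq_iff.2 h
  have hadjG : ∀ e x y, Joins s t e x y → G.Adj x y := by
    intro e x y h
    have := e.2
    rwa [hj e x y h] at this
  have hloop : ∀ e, s e ≠ t e := fun e => (hadjG e _ _ (Or.inl ⟨rfl, rfl⟩)).ne
  have : Nonempty V := by
    obtain ⟨e, he⟩ := Set.nonempty_iff_ne_empty.2 hE
    exact ⟨s ⟨e, he⟩⟩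
  obtain ⟨k, φ, ε, h1, h2, h3⟩ := exists_decomp_lin s t hloop
    (fun e e' x y h h' => Subtype.ext ((hj e x y h).trans (hj e' x y h').symm)) m hm1 par hpar
    (fun A hA1 hA2 => by
      by_contra hc
      have h4 := hG (Subtype.val '' ((Finset.univ.filter (fun e => ¬ (s e ∈ A ↔ t e ∈ A)) :
        Finset G.edgeSet) : Set G.edgeSet)) (by
          rw [Set.ncard_image_of_injective _ Subtype.val_injective, Set.ncard_coe_finset]
          exact not_le.1 hc)
      obtain ⟨a, ha⟩ := hA1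
      obtain ⟨b, hb⟩ : ∃ b, b ∉ A := by
        by_contra h5
        push Not at h5
        exact hA2 (Finset.eq_univ_of_forall h5)
      obtain ⟨p⟩ := h4.preconnected a b
      obtain ⟨d, -, hd1, hd2⟩ := p.exists_boundary_dart (A : Set V) ha hb
      obtain ⟨hd3, hd4⟩ := SimpleGraph.deleteEdges_adj.1 d.adj
      refine hd4 ⟨⟨s(d.fst, d.snd), hd3⟩, Finset.mem_coe.2 (Finset.mem_filter.2
        ⟨Finset.mem_univ _, ?_⟩), rfl⟩
      rcases Sym2.eq_iff.1 (hst ⟨s(d.fst, d.snd), hd3⟩) with ⟨h5, h6⟩ | ⟨h5, h6⟩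
      · rw [← h5, ← h6]; exact fun h => hd2 (h.1 hd1)
      · rw [← h5, ← h6]; exact fun h => hd2 (h.2 hd1))
    (fun v => (hδ v).trans (by
      unfold cutN
      rw [← Set.ncard_coe_finset, ← Set.ncard_image_of_injective _ Subtype.val_injective]
      refine Set.ncard_le_ncard_of_injOn (fun x => s(v, x)) (fun x hx => ?_)
        (fun x _ y _ h => Sym2.congr_right.1 h) (Set.toFinite _)
      have h4 : G.Adj v x := hx
      refine ⟨⟨s(v, x), h4⟩, Finset.mem_coe.2 (Finset.mem_filter.2 ⟨Finset.mem_univ _, ?_⟩), rfl⟩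
      simp only [Finset.mem_singleton]
      rcases Sym2.eq_iff.1 (hst ⟨s(v, x), h4⟩) with ⟨h5, h6⟩ | ⟨h5, h6⟩
      · rw [← h5, ← h6]; exact fun h => h4.ne' (h.1 rfl)
      · rw [← h5, ← h6]; exact fun h => h4.ne' (h.2 rfl)))
    (by rwa [Set.ncard_eq_toFinset_card', Set.toFinset_card] at hdvd)
  let f : Fin k → T.Copy G := fun x =>
    { toHom := ⟨fun w => φ x (pos w), fun {u v} h => by
        rcases (hadj u v).1 h with ⟨a1, a2⟩ | ⟨a1, a2⟩
        · have := hadjG _ _ _ (h1 x _ a1 (hp1 v))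
          rwa [a2] at this
        · have := hadjG _ _ _ (h1 x _ a1 (hp1 u))
          rw [a2] at this
          exact this.symm⟩
      injective' := fun u v h => by
        apply hp2
        rcases lt_trichotomy (pos u) (pos v) with a1 | a1 | a1
        · exact absurd h (h2 x _ _ a1 (hp1 v))
        · exact a1
        · exact absurd h.symm (h2 x _ _ a1 (hp1 u)) }
  refine ⟨k, fun x => (f x).toSubgraph, fun x => ⟨(f x).isoToSubgraph⟩, fun e he => ?_⟩
  have key : ∀ x, e ∈ (f x).toSubgraph.edgeSet ↔ ∃ c, 1 ≤ c ∧ c ≤ m ∧ ε x c = ⟨e, he⟩ := by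
    intro x
    rw [SimpleGraph.Subgraph.edgeSet_map, SimpleGraph.Subgraph.edgeSet_top]
    constructor
    · rintro ⟨z, hz, h4⟩
      induction z using Sym2.ind with
      | _ u v =>
        have h5 : s(φ x (pos u), φ x (pos v)) = e := h4
        rcases (hadj u v).1 hz with ⟨a1, a2⟩ | ⟨a1, a2⟩
        · refine ⟨pos v, a1, hp1 v, Subtype.ext ?_⟩
          rw [hj _ _ _ (h1 x _ a1 (hp1 v)), a2]
          exact h5
        · refine ⟨pos u, a1, hp1 u, Subtype.ext ?_⟩
          rw [hj _ _ _ (h1 x _ a1 (hp1 u)), a2, Sym2.eq_swap]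
          exact h5
    · rintro ⟨c, a1, a2, a3⟩
      obtain ⟨v, rfl⟩ := hp3 c a2
      obtain ⟨u, hu⟩ := hp3 (par (pos v)) (by have := hpar _ a1; omega)
      refine ⟨s(u, v), (hadj u v).2 (Or.inl ⟨a1, hu.symm⟩), ?_⟩
      have h5 := hj _ _ _ (h1 x _ a1 a2)
      rw [a3, ← hu] at h5
      exact h5.symm
  simp only [key]
  exact h3 ⟨e, he⟩

end Pool.Agent.Lib.MP_1c8ed6_co.Lin
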